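import Pool.Agent.Helper29.Rohr.Fourier

/-!
Lower bound for the average of `‖1 - e(t s)‖ ^ 2` over the units `t` modulo `D`.
-/

namespace Pool.Agent.Helper29.Rohr

open Finset

variable {D : ℕ} [NeZero D]

lemma ee_inj {x y : ZMod D} : ee x = ee y ↔ x = y :=
  (ZMod.injective_stdAddChar (N := D)).eq_iff

lemma ee_prim (x : ZMod D) : IsPrimitiveRoot (ee x) (addOrderOf x) := by
  have h : ∀ k : ℕ, ee x ^ k = 1 ↔ k • x = 0 := by
    intro k
    rw [← AddChar.map_nsmul_eq_pow, ← ee_zero (D := D)]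
    exact ee_inj
  refine ⟨(h _).2 (addOrderOf_nsmul_eq_zero x), fun l hl => ?_⟩
  rw [addOrderOf_dvd_iff_nsmul_eq_zero]
  exact (h l).1 hl

omit [NeZero D] in
lemma addOrderOf_unit_mul (t : (ZMod D)ˣ) (s : ZMod D) :
    addOrderOf ((t : ZMod D) * s) = addOrderOf s := by
  refine Nat.dvd_antisymm ?_ ?_
  · rw [addOrderOf_dvd_iff_nsmul_eq_zero, ← mul_smul_comm, addOrderOf_nsmul_eq_zero, mul_zero]
  · rw [addOrderOf_dvd_iff_nsmul_eq_zero]
    have h := addOrderOf_nsmul_eq_zero ((t : ZMod D) * s)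
    rw [← mul_smul_comm] at h
    have h2 : ((t⁻¹ : (ZMod D)ˣ) : ZMod D) * ((t : ZMod D) *
        (addOrderOf ((t : ZMod D) * s) • s)) = 0 := by rw [h, mul_zero]
    rwa [← mul_assoc, Units.inv_mul, one_mul] at h2

omit [NeZero D] in
lemma order_dvd (s : ZMod D) : addOrderOf s ∣ D := by
  rw [addOrderOf_dvd_iff_nsmul_eq_zero, nsmul_eq_mul, CharP.cast_eq_zero, zero_mul]

open Classical in
lemma image_eq (s : ZMod D) :
    (univ : Finset (ZMod D)ˣ).image (fun t : (ZMod D)ˣ => ee ((t : ZMod D) * s)) =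
      primitiveRoots (addOrderOf s) ℂ := by
  have hn : 0 < addOrderOf s :=
    Nat.pos_of_dvd_of_pos (order_dvd s) (Nat.pos_of_ne_zero (NeZero.ne D))
  have : NeZero (addOrderOf s) := ⟨hn.ne'⟩
  ext μ
  rw [mem_image, mem_primitiveRoots hn]
  constructor
  · rintro ⟨t, _, rfl⟩
    rw [← addOrderOf_unit_mul t s]
    exact ee_prim _
  · intro hμ
    obtain ⟨i, _, hi, hμi⟩ := ((ee_prim s).isPrimitiveRoot_iff).1 hμ
    obtain ⟨t, ht⟩ := ZMod.unitsMap_surjective (order_dvd s) (ZMod.unitOfCoprime i hi)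
    refine ⟨t, mem_univ _, ?_⟩
    have h1 : ((t : ZMod D).cast : ZMod (addOrderOf s)) = (i : ZMod (addOrderOf s)) := by
      have := congrArg (fun u : (ZMod (addOrderOf s))ˣ => (u : ZMod (addOrderOf s))) ht
      simpa [ZMod.unitsMap_val] using this
    rw [← ZMod.natCast_val, ZMod.natCast_eq_natCast_iff] at h1
    have h2 : (t : ZMod D).val • s = i • s := nsmul_eq_nsmul_iff_modEq.2 h1
    rw [← hμi, ← AddChar.map_nsmul_eq_pow, ← h2, nsmul_eq_mul, ZMod.natCast_zmod_val]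

open Classical in
lemma fiber_card (s : ZMod D) (t₀ : (ZMod D)ˣ) :
    ((univ : Finset (ZMod D)ˣ).filter
      (fun t : (ZMod D)ˣ => ee ((t : ZMod D) * s) = ee ((t₀ : ZMod D) * s))).card =
    ((univ : Finset (ZMod D)ˣ).filter (fun t : (ZMod D)ˣ => (t : ZMod D) * s = s)).card := by
  refine card_bij (fun t _ => t₀⁻¹ * t) ?_ ?_ ?_
  · intro t ht
    simp only [mem_filter, mem_univ, true_and] at ht ⊢
    have h := ee_inj.1 ht
    rw [Units.val_mul, mul_assoc, h, ← mul_assoc, Units.inv_mul, one_mul]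
  · intro a _ b _ h
    exact mul_left_cancel h
  · intro t ht
    simp only [mem_filter, mem_univ, true_and] at ht
    refine ⟨t₀ * t, ?_, by rw [inv_mul_cancel_left]⟩
    simp only [mem_filter, mem_univ, true_and]
    rw [Units.val_mul, mul_assoc, ht]

lemma one_le_prod_primitiveRoots (n : ℕ) (hn : 2 ≤ n) (ζ : ℂ) (hζ : IsPrimitiveRoot ζ n) :
    1 ≤ ∏ μ ∈ primitiveRoots n ℂ, ‖1 - μ‖ := by
  have hn0 : 0 < n := by omega
  have h1 : ∏ μ ∈ primitiveRoots n ℂ, (1 - μ) = (Polynomial.cyclotomic n ℂ).eval 1 := by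
    rw [Polynomial.cyclotomic_eq_prod_X_sub_primitiveRoots hζ, Polynomial.eval_prod]
    exact prod_congr rfl (fun μ _ => by simp)
  have h2 : (Polynomial.cyclotomic n ℂ).eval 1 = (((Polynomial.cyclotomic n ℤ).eval 1 : ℤ) : ℂ) := by
    rw [← Polynomial.map_cyclotomic_int n ℂ, Polynomial.eval_one_map]
    rfl
  have h3 : ∏ μ ∈ primitiveRoots n ℂ, (1 - μ) ≠ 0 := by
    refine prod_ne_zero_iff.2 (fun μ hμ => sub_ne_zero.2 ?_)
    intro h
    have hp := (mem_primitiveRoots hn0).1 hμ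
    rw [← h] at hp
    have := hp.eq_orderOf
    rw [orderOf_one] at this
    omega
  have h4 : ((Polynomial.cyclotomic n ℤ).eval 1 : ℤ) ≠ 0 := by
    intro h
    rw [h1, h2, h] at h3
    simp at h3
  calc (1 : ℝ) ≤ |(((Polynomial.cyclotomic n ℤ).eval 1 : ℤ) : ℝ)| := by
        have := Int.one_le_abs h4
        exact_mod_cast this
    _ = ‖∏ μ ∈ primitiveRoots n ℂ, (1 - μ)‖ := by
        rw [h1, h2, Complex.norm_intCast]
    _ = ∏ μ ∈ primitiveRoots n ℂ, ‖1 - μ‖ := norm_prod _ _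

lemma one_le_prod_units (s : ZMod D) (hs : s ≠ 0) :
    1 ≤ ∏ t : (ZMod D)ˣ, ‖1 - ee ((t : ZMod D) * s)‖ := by
  classical
  have hn : 0 < addOrderOf s :=
    Nat.pos_of_dvd_of_pos (order_dvd s) (Nat.pos_of_ne_zero (NeZero.ne D))
  have hn2 : 2 ≤ addOrderOf s := by
    have : addOrderOf s ≠ 1 := by
      rw [Ne, AddMonoid.addOrderOf_eq_one_iff]
      exact hs
    omega
  have h1 : ∏ t : (ZMod D)ˣ, ‖1 - ee ((t : ZMod D) * s)‖ =
      (∏ μ ∈ primitiveRoots (addOrderOf s) ℂ, ‖1 - μ‖) ^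
        ((univ : Finset (ZMod D)ˣ).filter (fun t : (ZMod D)ˣ => (t : ZMod D) * s = s)).card := by
    rw [prod_comp (fun μ : ℂ => ‖1 - μ‖) (fun t : (ZMod D)ˣ => ee ((t : ZMod D) * s)),
      ← image_eq, ← prod_pow]
    refine prod_congr rfl (fun μ hμ => ?_)
    obtain ⟨t₀, _, rfl⟩ := mem_image.1 hμ
    rw [fiber_card s t₀]
  rw [h1]
  exact one_le_pow₀ (one_le_prod_primitiveRoots _ hn2 _ (ee_prim s))

/-- AM-GM -/
lemma units_lower (s : ZMod D) (hs : s ≠ 0) :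
    (Fintype.card (ZMod D)ˣ : ℝ) ≤ ∑ t : (ZMod D)ˣ, ‖1 - ee ((t : ZMod D) * s)‖ ^ 2 := by
  have hpos : ∀ t : (ZMod D)ˣ, 0 < ‖1 - ee ((t : ZMod D) * s)‖ := by
    intro t
    rw [norm_pos_iff, sub_ne_zero]
    intro h
    refine ee_ne_one ((t : ZMod D) * s) ?_ h.symm
    intro h0
    exact hs ((Units.mul_right_eq_zero t).1 h0)
  have h1 : 0 ≤ ∑ t : (ZMod D)ˣ, Real.log (‖1 - ee ((t : ZMod D) * s)‖ ^ 2) := by
    rw [← Real.log_prod (fun t _ => (pow_pos (hpos t) 2).ne')]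
    apply Real.log_nonneg
    rw [prod_pow]
    exact one_le_pow₀ (one_le_prod_units s hs)
  have h2 : ∑ t : (ZMod D)ˣ, Real.log (‖1 - ee ((t : ZMod D) * s)‖ ^ 2) ≤
      ∑ t : (ZMod D)ˣ, (‖1 - ee ((t : ZMod D) * s)‖ ^ 2 - 1) :=
    sum_le_sum (fun t _ => Real.log_le_sub_one_of_pos (pow_pos (hpos t) 2))
  rw [sum_sub_distrib, sum_const, card_univ, nsmul_eq_mul, mul_one] at h2
  linarith

end Pool.Agent.Helper29.Rohr
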