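import Pool.Agent.Helper29.Rohr.Second
import Pool.Agent.Helper29.Rohr.Units

/-!
Size of a class of residues `c` with the same values of `(t c) + (t (s - c))` for all units `t`.
-/

namespace Pool.Agent.Helper29.Rohr

open Finset

variable {D : ℕ} [NeZero D]

open Classical in
/-- the class of `(a, b)` -/
noncomputable def kls (a b : ZMod D) : Finset (ZMod D) :=
  univ.filter (fun c => ∀ t : (ZMod D)ˣ, ((t : ZMod D) * c).val + ((t : ZMod D) * (a + b - c)).val =
    ((t : ZMod D) * a).val + ((t : ZMod D) * b).val)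

/-- the common value -/
noncomputable def cv (a b : ZMod D) (t : (ZMod D)ˣ) : ℝ :=
  ((((t : ZMod D) * a).val : ℝ) + ((t : ZMod D) * b).val) / D - 1

lemma saw_add (a b c : ZMod D) (hc : c ∈ kls a b) (t : (ZMod D)ˣ) :
    saw ((t : ZMod D) * c) + saw ((t : ZMod D) * (a + b - c)) = cv a b t := by
  simp only [kls, mem_filter, mem_univ, true_and] at hc
  have h := hc t
  have h' : ((((t : ZMod D) * c).val : ℝ) + ((t : ZMod D) * (a + b - c)).val) =
      (((t : ZMod D) * a).val : ℝ) + ((t : ZMod D) * b).val := by exact_mod_cast h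
  unfold saw cv
  rw [← h']
  ring

lemma sum_saw (a b : ZMod D) (t : (ZMod D)ˣ) :
    ((kls a b).card : ℝ) * cv a b t = ∑ c ∈ kls a b, saw ((t : ZMod D) * c) +
      ∑ c ∈ (kls a b).image (fun c => a + b - c), saw ((t : ZMod D) * c) := by
  classical
  rw [sum_image (fun x _ y _ h => sub_right_injective h), ← sum_add_distrib,
    sum_congr rfl (fun c hc => saw_add a b c hc t), sum_const, nsmul_eq_mul]

lemma sin_le_cv (a b : ZMod D) (t : (ZMod D)ˣ) :
    ‖1 - ee ((t : ZMod D) * (a + b))‖ ≤ 2 * Real.pi * |cv a b t| := by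
  have hD := D_pos (D := D)
  rw [norm_sub_rev, norm_ee_sub_one]
  have h1 : |Real.sin (Real.pi * ((t : ZMod D) * (a + b)).val / D)| =
      |Real.sin (Real.pi * cv a b t)| := by
    have h2 : ((t : ZMod D) * (a + b)).val =
        (((t : ZMod D) * a).val + ((t : ZMod D) * b).val) % D := by
      rw [mul_add, ZMod.val_add]
    have h3 := Nat.mod_add_div (((t : ZMod D) * a).val + ((t : ZMod D) * b).val) D
    rw [← h2] at h3
    have hlt : (((t : ZMod D) * a).val + ((t : ZMod D) * b).val) / D < 2 := by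
      rw [Nat.div_lt_iff_lt_mul (Nat.pos_of_ne_zero (NeZero.ne D))]
      have := ZMod.val_lt ((t : ZMod D) * a)
      have := ZMod.val_lt ((t : ZMod D) * b)
      omega
    set q := (((t : ZMod D) * a).val + ((t : ZMod D) * b).val) / D with hq
    have h4 : (((t : ZMod D) * (a + b)).val : ℝ) + D * q =
        (((t : ZMod D) * a).val : ℝ) + ((t : ZMod D) * b).val := by exact_mod_cast h3
    have h5 : cv a b t = (((t : ZMod D) * (a + b)).val : ℝ) / D + q - 1 := by
      unfold cv
      rw [← h4]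
      field_simp
    have hq2 : q = 0 ∨ q = 1 := Nat.le_one_iff_eq_zero_or_eq_one.1 (Nat.lt_succ_iff.1 hlt)
    rcases hq2 with h0 | h0
    · rw [h5, h0]
      have : Real.pi * ((((t : ZMod D) * (a + b)).val : ℝ) / D + ((0 : ℕ) : ℝ) - 1) =
          Real.pi * ((t : ZMod D) * (a + b)).val / D - Real.pi := by
        push_cast; ring
      rw [this, Real.sin_sub_pi, abs_neg]
    · rw [h5, h0]
      congr 2
      push_cast; ring
  rw [h1]
  have h6 : |Real.sin (Real.pi * cv a b t)| ≤ |Real.pi * cv a b t| := Real.abs_sin_le_abs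
  rw [abs_mul, abs_of_pos Real.pi_pos] at h6
  linarith

lemma sum_cv_sq (a b : ZMod D) (hs : a + b ≠ 0) :
    (Nat.totient D : ℝ) ≤ 4 * Real.pi ^ 2 * ∑ t : (ZMod D)ˣ, cv a b t ^ 2 := by
  have h1 := units_lower (a + b) hs
  rw [ZMod.card_units_eq_totient] at h1
  refine h1.trans ?_
  rw [mul_sum]
  refine sum_le_sum (fun t _ => ?_)
  have h2 := pow_le_pow_left₀ (norm_nonneg _) (sin_le_cv a b t) 2
  refine h2.trans (le_of_eq ?_)
  rw [mul_pow, mul_pow, sq_abs]
  ring

/-- bound for the class size -/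
noncomputable def UU (D : ℕ) : ℝ :=
  160 * (D / Nat.totient D) * (D.divisors.card) * (1 + Real.log D) ^ 2

lemma card_kls_le (a b : ZMod D) (hs : a + b ≠ 0) : ((kls a b).card : ℝ) ≤ UU D := by
  classical
  have hD := D_pos (D := D)
  set A := kls a b with hA
  set A' := A.image (fun c => a + b - c) with hA'
  set K : ℝ := (D.divisors.card : ℝ) * (1 + Real.log D) ^ 2 with hK
  have hK0 : 0 ≤ K := mul_nonneg (Nat.cast_nonneg _) (sq_nonneg _)
  have hcard' : (A'.card : ℝ) ≤ A.card := Nat.cast_le.2 card_image_le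
  have h1 : ∑ t : (ZMod D)ˣ, ((A.card : ℝ) * cv a b t) ^ 2 ≤ 4 * (D * A.card * K) := by
    calc ∑ t : (ZMod D)ˣ, ((A.card : ℝ) * cv a b t) ^ 2
        ≤ ∑ t : (ZMod D)ˣ, (2 * (∑ c ∈ A, saw ((t : ZMod D) * c)) ^ 2 +
            2 * (∑ c ∈ A', saw ((t : ZMod D) * c)) ^ 2) := by
          refine sum_le_sum (fun t _ => ?_)
          rw [hA, sum_saw a b t, ← hA, ← hA']
          nlinarith [sq_nonneg (∑ c ∈ A, saw ((t : ZMod D) * c) -
            ∑ c ∈ A', saw ((t : ZMod D) * c))]
      _ ≤ ∑ t : ZMod D, (2 * (∑ c ∈ A, saw (t * c)) ^ 2 + 2 * (∑ c ∈ A', saw (t * c)) ^ 2) := by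
          have hinj : Set.InjOn (fun t : (ZMod D)ˣ => (t : ZMod D))
              ((univ : Finset (ZMod D)ˣ) : Set (ZMod D)ˣ) := fun x _ y _ h => Units.ext h
          rw [← sum_image (f := fun t : ZMod D => 2 * (∑ c ∈ A, saw (t * c)) ^ 2 +
            2 * (∑ c ∈ A', saw (t * c)) ^ 2) (g := fun t : (ZMod D)ˣ => (t : ZMod D)) hinj]
          exact sum_le_sum_of_subset_of_nonneg (subset_univ _) (fun t _ _ => by positivity)
      _ = 2 * ∑ t : ZMod D, (∑ c ∈ A, saw (t * c)) ^ 2 +
            2 * ∑ t : ZMod D, (∑ c ∈ A', saw (t * c)) ^ 2 := by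
          rw [sum_add_distrib, mul_sum, mul_sum]
      _ ≤ 2 * (D * A.card * K) + 2 * (D * A'.card * K) := by
          have e1 := second_moment' (D := D) A
          have e2 := second_moment' (D := D) A'
          linarith
      _ ≤ 4 * (D * A.card * K) := by
          have : D * A'.card * K ≤ D * A.card * K :=
            mul_le_mul_of_nonneg_right (mul_le_mul_of_nonneg_left hcard' hD.le) hK0
          linarith
  have h2 : ∑ t : (ZMod D)ˣ, ((A.card : ℝ) * cv a b t) ^ 2 =
      (A.card : ℝ) ^ 2 * ∑ t : (ZMod D)ˣ, cv a b t ^ 2 := by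
    rw [mul_sum]
    exact sum_congr rfl (fun t _ => by ring)
  rw [h2] at h1
  have h3 := sum_cv_sq a b hs
  have hφ : (0 : ℝ) < Nat.totient D :=
    Nat.cast_pos.2 (Nat.totient_pos.2 (Nat.pos_of_ne_zero (NeZero.ne D)))
  have hpi : Real.pi ^ 2 ≤ 10 := by
    have := Real.pi_lt_d2
    have := Real.pi_pos
    nlinarith
  -- multiply
  rcases (Nat.cast_nonneg (α := ℝ) A.card).eq_or_lt with h0 | h0
  · rw [← h0]
    unfold UU
    positivity
  · have h4 : (A.card : ℝ) ^ 2 * Nat.totient D ≤ 160 * (D * A.card * K) := by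
      have h5 : (A.card : ℝ) ^ 2 * Nat.totient D ≤
          (A.card : ℝ) ^ 2 * (4 * Real.pi ^ 2 * ∑ t : (ZMod D)ˣ, cv a b t ^ 2) :=
        mul_le_mul_of_nonneg_left h3 (sq_nonneg _)
      have h6 : (A.card : ℝ) ^ 2 * (4 * Real.pi ^ 2 * ∑ t : (ZMod D)ˣ, cv a b t ^ 2) ≤
          4 * Real.pi ^ 2 * (4 * (D * A.card * K)) := by
        have := mul_le_mul_of_nonneg_left h1 (by positivity : (0 : ℝ) ≤ 4 * Real.pi ^ 2)
        linarith
      have h7 : 4 * Real.pi ^ 2 * (4 * (D * A.card * K)) ≤ 160 * (D * A.card * K) := by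
        have h8 : 0 ≤ (D : ℝ) * A.card * K := by positivity
        nlinarith
      linarith
    have h5 : (A.card : ℝ) * Nat.totient D ≤ 160 * (D * K) := by
      have : (A.card : ℝ) * ((A.card : ℝ) * Nat.totient D) ≤ A.card * (160 * (D * K)) := by
        linarith
      exact le_of_mul_le_mul_left this h0
    have h6 : (A.card : ℝ) ≤ 160 * (D * K) / Nat.totient D := (le_div_iff₀ hφ).2 h5
    refine h6.trans (le_of_eq ?_)
    unfold UU
    rw [hK]
    ring

end Pool.Agent.Helper29.Rohr
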