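import Mathlib

/-!
Abstract counting: a function `f` on the nonzero residues modulo `p` with values in a commutative
group, odd in the sense `f a * f (-a) = 1`.  The number of `r`-tuples with a given product of
values is controlled by the number of zero-sum quadruples with product one which do not cancel
in pairs.
-/

namespace Pool.Agent.Helper29.Rohr

open Finset

variable {p : ℕ} [NeZero p] {V : Type*} [CommGroup V] [DecidableEq V]

/-- nonzero residues -/
def nz (p : ℕ) [NeZero p] : Finset (ZMod p) := univ.filter (fun a => a ≠ 0)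

/-- unpaired zero-sum quadruples with product one -/
def quads (f : ZMod p → V) : Finset (ZMod p × ZMod p × ZMod p × ZMod p) :=
  (nz p ×ˢ nz p ×ˢ nz p ×ˢ nz p).filter (fun x =>
    x.1 + x.2.1 + x.2.2.1 + x.2.2.2 = 0 ∧ f x.1 * f x.2.1 * f x.2.2.1 * f x.2.2.2 = 1 ∧
    x.1 + x.2.1 ≠ 0 ∧ x.1 + x.2.2.1 ≠ 0 ∧ x.1 + x.2.2.2 ≠ 0)

/-- pairs with nonzero sum and given product -/
def prs (f : ZMod p → V) (w : V) : Finset (ZMod p × ZMod p) :=
  (nz p ×ˢ nz p).filter (fun x => x.1 + x.2 ≠ 0 ∧ f x.1 * f x.2 = w)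

/-- all pairs with given product -/
def prs0 (f : ZMod p → V) (w : V) : Finset (ZMod p × ZMod p) :=
  (nz p ×ˢ nz p).filter (fun x => f x.1 * f x.2 = w)

lemma mem_nz {a : ZMod p} : a ∈ nz p ↔ a ≠ 0 := by simp [nz]

lemma card_nz : (nz p).card = p - 1 := by
  have : nz p = univ.erase 0 := by
    ext a; simp [nz]
  rw [this, card_erase_of_mem (mem_univ _), card_univ, ZMod.card]

/-- pairs of pairs with the same sum -/
def pp (f : ZMod p → V) (w : V) : Finset ((ZMod p × ZMod p) × (ZMod p × ZMod p)) :=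
  (prs f w ×ˢ prs f w).filter (fun x => x.1.1 + x.1.2 = x.2.1 + x.2.2)

lemma sum_sq (f : ZMod p → V) (w : V) :
    ∑ s ∈ nz p, ((prs f w).filter (fun x => x.1 + x.2 = s)).card ^ 2 = (pp f w).card := by
  classical
  have h : ∀ x ∈ pp f w, (x.1.1 + x.1.2) ∈ nz p := by
    intro x hx
    simp only [pp, mem_filter, mem_product, prs] at hx
    exact mem_nz.2 hx.1.1.2.1
  rw [card_eq_sum_card_fiberwise (f := fun x => x.1.1 + x.1.2) (t := nz p)
    (fun x hx => h x hx)]
  refine sum_congr rfl (fun s hs => ?_)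
  rw [sq, ← card_product]
  congr 1
  ext x
  simp only [mem_product, mem_filter, pp]
  constructor
  · rintro ⟨⟨h1, h2⟩, h3, h4⟩
    exact ⟨⟨⟨h1, h3⟩, by rw [h2, h4]⟩, h2⟩
  · rintro ⟨⟨⟨h1, h3⟩, h4⟩, h2⟩
    exact ⟨⟨h1, h2⟩, h3, by rw [← h4, h2]⟩

lemma card_pp_le (f : ZMod p → V) (hf : ∀ a, a ≠ 0 → f a * f (-a) = 1) (w : V) :
    (pp f w).card ≤ 2 * (prs f w).card + (quads f).card := by
  classical
  -- split
  have hsub : pp f w ⊆ ((prs f w).image (fun x => (x, x)) ∪ (prs f w).image (fun x => (x, x.swap)))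
      ∪ (pp f w).filter (fun x => x.1.1 ≠ x.2.1 ∧ x.1.1 ≠ x.2.2) := by
    intro x hx
    have hx' := hx
    simp only [pp, mem_filter, mem_product] at hx
    obtain ⟨⟨h1, h2⟩, h3⟩ := hx
    by_cases ha : x.1.1 = x.2.1
    · have hb : x.1.2 = x.2.2 := by
        rw [ha] at h3; exact add_left_cancel h3
      refine mem_union_left _ (mem_union_left _ (mem_image.2 ⟨x.1, h1, ?_⟩))
      ext <;> simp [ha, hb]
    · by_cases hc : x.1.1 = x.2.2
      · have hb : x.1.2 = x.2.1 := by
          rw [hc, add_comm x.2.1] at h3; exact add_left_cancel h3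
        refine mem_union_left _ (mem_union_right _ (mem_image.2 ⟨x.1, h1, ?_⟩))
        ext <;> simp [hc, hb]
      · exact mem_union_right _ (mem_filter.2 ⟨hx', ha, hc⟩)
  have h3 : ((pp f w).filter (fun x => x.1.1 ≠ x.2.1 ∧ x.1.1 ≠ x.2.2)).card ≤ (quads f).card := by
    refine card_le_card_of_injOn (fun x => (x.1.1, x.1.2, -x.2.1, -x.2.2)) ?_ ?_
    · intro x hx
      have hx' := mem_coe.1 hx
      simp only [pp, mem_filter, mem_product, prs, mem_nz] at hx'
      obtain ⟨⟨⟨⟨⟨h1, h2⟩, h3, h4⟩, ⟨h5, h6⟩, h7, h8⟩, h9⟩, h10, h11⟩ := hx'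
      have e1 : f (-x.2.1) = (f x.2.1)⁻¹ := (inv_eq_of_mul_eq_one_right (hf _ h5)).symm
      have e2 : f (-x.2.2) = (f x.2.2)⁻¹ := (inv_eq_of_mul_eq_one_right (hf _ h6)).symm
      refine mem_coe.2 ?_
      simp only [quads, mem_filter, mem_product, mem_nz]
      refine ⟨⟨h1, h2, neg_ne_zero.2 h5, neg_ne_zero.2 h6⟩, ?_, ?_, h3, ?_, ?_⟩
      · rw [h9]; ring
      · rw [e1, e2, h4, mul_assoc, ← mul_inv, h8, mul_inv_cancel]
      · intro h; exact h10 (add_neg_eq_zero.1 h)
      · intro h; exact h11 (add_neg_eq_zero.1 h)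
    · intro x _ y _ hxy
      simp only [Prod.mk.injEq, neg_inj] at hxy
      obtain ⟨a, b, c, d⟩ := hxy
      ext <;> simp [a, b, c, d]
  calc (pp f w).card ≤ _ := card_le_card hsub
    _ ≤ _ := card_union_le _ _
    _ ≤ (((prs f w).image (fun x => (x, x))).card + ((prs f w).image (fun x => (x, x.swap))).card)
        + (quads f).card := add_le_add (card_union_le _ _) h3
    _ ≤ ((prs f w).card + (prs f w).card) + (quads f).card :=
        Nat.add_le_add_right (add_le_add card_image_le card_image_le) _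
    _ = _ := by ring

lemma prs_sq_le (f : ZMod p → V) (hf : ∀ a, a ≠ 0 → f a * f (-a) = 1) (w : V) :
    (prs f w).card ^ 2 ≤ (p - 1) * (2 * (prs f w).card + (quads f).card) := by
  classical
  have h1 : (prs f w).card = ∑ s ∈ nz p, ((prs f w).filter (fun x => x.1 + x.2 = s)).card := by
    refine card_eq_sum_card_fiberwise (fun x hx => ?_)
    have hx' := mem_coe.1 hx
    simp only [prs, mem_filter] at hx'
    exact mem_coe.2 (mem_nz.2 hx'.2.1)
  calc (prs f w).card ^ 2
      = (∑ s ∈ nz p, ((prs f w).filter (fun x => x.1 + x.2 = s)).card) ^ 2 := by rw [← h1]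
    _ ≤ (nz p).card * ∑ s ∈ nz p, ((prs f w).filter (fun x => x.1 + x.2 = s)).card ^ 2 :=
        sq_sum_le_card_mul_sum_sq
    _ = (p - 1) * (pp f w).card := by rw [card_nz, sum_sq]
    _ ≤ _ := Nat.mul_le_mul_left _ (card_pp_le f hf w)

lemma prs0_le (f : ZMod p → V) (w : V) : (prs0 f w).card ≤ (p - 1) + (prs f w).card := by
  classical
  have hsub : prs0 f w ⊆ (nz p).image (fun a => (a, -a)) ∪ prs f w := by
    intro x hx
    simp only [prs0, mem_filter, mem_product] at hx
    by_cases h : x.1 + x.2 = 0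
    · refine mem_union_left _ (mem_image.2 ⟨x.1, hx.1.1, ?_⟩)
      ext
      · rfl
      · simp [eq_neg_of_add_eq_zero_right h]
    · refine mem_union_right _ ?_
      simp only [prs, mem_filter, mem_product]
      exact ⟨hx.1, h, hx.2⟩
  calc (prs0 f w).card ≤ _ := card_le_card hsub
    _ ≤ ((nz p).image (fun a => (a, -a))).card + (prs f w).card := card_union_le _ _
    _ ≤ (nz p).card + (prs f w).card := Nat.add_le_add_right card_image_le _
    _ = _ := by rw [card_nz]

/-- the bound -/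
noncomputable def bd (f : ZMod p → V) : ℝ :=
  3 * ((p : ℝ) - 1) + Real.sqrt (((p : ℝ) - 1) * (quads f).card)

lemma one_le_p (p : ℕ) [NeZero p] : 1 ≤ p := Nat.one_le_iff_ne_zero.2 (NeZero.ne p)

lemma prs0_le_bd (f : ZMod p → V) (hf : ∀ a, a ≠ 0 → f a * f (-a) = 1) (w : V) :
    ((prs0 f w).card : ℝ) ≤ bd f := by
  have h1 := prs_sq_le f hf w
  have h2 := prs0_le f w
  have hp : 1 ≤ p := one_le_p p
  have h1' : ((prs f w).card : ℝ) ^ 2 ≤
      ((p : ℝ) - 1) * (2 * (prs f w).card + (quads f).card) := by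
    have := (Nat.cast_le (α := ℝ)).2 h1
    push_cast [Nat.cast_sub hp] at this
    exact this
  have h2' : ((prs0 f w).card : ℝ) ≤ ((p : ℝ) - 1) + (prs f w).card := by
    have := (Nat.cast_le (α := ℝ)).2 h2
    push_cast [Nat.cast_sub hp] at this
    exact this
  have hp' : (0 : ℝ) ≤ (p : ℝ) - 1 := by
    have : (1 : ℝ) ≤ p := by exact_mod_cast hp
    linarith
  have hq : (0 : ℝ) ≤ (quads f).card := Nat.cast_nonneg _
  set x : ℝ := ((prs f w).card : ℝ)
  set q : ℝ := ((quads f).card : ℝ)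
  set n : ℝ := (p : ℝ) - 1
  have hs := Real.sq_sqrt (mul_nonneg hp' hq)
  have hs0 := Real.sqrt_nonneg (n * q)
  have hx : x ≤ 2 * n + Real.sqrt (n * q) := by
    by_contra hcon
    push_neg at hcon
    nlinarith
  unfold bd
  linarith

/-- tuples of nonzero residues with a given product -/
def tup (f : ZMod p → V) (r : ℕ) (w : V) : Finset (Fin r → ZMod p) :=
  (Fintype.piFinset (fun _ : Fin r => nz p)).filter (fun a => ∏ i, f (a i) = w)

lemma bd_nonneg (f : ZMod p → V) : 0 ≤ bd f := by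
  have hp : 1 ≤ p := one_le_p p
  have : (1 : ℝ) ≤ p := by exact_mod_cast hp
  unfold bd
  have := Real.sqrt_nonneg (((p : ℝ) - 1) * (quads f).card)
  linarith

lemma tup_two (f : ZMod p → V) (w : V) : (tup f 2 w).card = (prs0 f w).card := by
  refine card_bij (fun a _ => (a 0, a 1)) ?_ ?_ ?_
  · intro a ha
    simp only [tup, mem_filter, Fintype.mem_piFinset, Fin.prod_univ_two] at ha
    simp only [prs0, mem_filter, mem_product]
    exact ⟨⟨ha.1 0, ha.1 1⟩, ha.2⟩
  · intro a _ b _ h
    simp only [Prod.mk.injEq] at h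
    funext i
    fin_cases i
    · exact h.1
    · exact h.2
  · intro x hx
    simp only [prs0, mem_filter, mem_product] at hx
    refine ⟨![x.1, x.2], ?_, ?_⟩
    · simp only [tup, mem_filter, Fintype.mem_piFinset, Fin.prod_univ_two]
      refine ⟨?_, ?_⟩
      · intro i
        fin_cases i
        · exact hx.1.1
        · exact hx.1.2
      · simpa using hx.2
    · simp

lemma tup_succ (f : ZMod p → V) (r : ℕ) (w : V) :
    (tup f (r + 1) w).card = ∑ a ∈ nz p, (tup f r ((f a)⁻¹ * w)).card := by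
  classical
  rw [card_eq_sum_card_fiberwise (f := fun a : Fin (r + 1) → ZMod p => a 0) (t := nz p)]
  · refine sum_congr rfl (fun a ha => ?_)
    refine card_bij (fun b _ => Fin.tail b) ?_ ?_ ?_
    · intro b hb
      simp only [tup, mem_filter, Fintype.mem_piFinset, Fin.prod_univ_succ] at hb ⊢
      refine ⟨fun i => hb.1.1 i.succ, ?_⟩
      have h2 : f (b 0) * ∏ i : Fin r, f (b i.succ) = w := hb.1.2
      rw [hb.2] at h2
      rw [← h2]
      simp [Fin.tail]
    · intro b hb c hc h
      simp only [mem_filter] at hb hc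
      have e : b 0 = c 0 := by rw [hb.2, hc.2]
      rw [← Fin.cons_self_tail b, ← Fin.cons_self_tail c, e, h]
    · intro b hb
      simp only [tup, mem_filter, Fintype.mem_piFinset] at hb
      refine ⟨Fin.cons a b, ?_, ?_⟩
      · simp only [tup, mem_filter, Fintype.mem_piFinset, Fin.prod_univ_succ, Fin.cons_zero,
          Fin.cons_succ]
        refine ⟨⟨?_, ?_⟩, trivial⟩
        · intro i
          refine Fin.cases ?_ ?_ i
          · simpa using ha
          · intro j; simpa using hb.1 j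
        · rw [hb.2]; simp
      · simp
  · intro a ha
    have ha' := mem_coe.1 ha
    simp only [tup, mem_filter, Fintype.mem_piFinset] at ha'
    exact mem_coe.2 (ha'.1 0)

theorem tup_le (f : ZMod p → V) (hf : ∀ a, a ≠ 0 → f a * f (-a) = 1) (k : ℕ) :
    ∀ w : V, ((tup f (k + 2) w).card : ℝ) ≤ ((p : ℝ) - 1) ^ k * bd f := by
  induction k with
  | zero =>
    intro w
    rw [zero_add, tup_two, pow_zero, one_mul]
    exact prs0_le_bd f hf w
  | succ k ih =>
    intro w
    have hp : 1 ≤ p := one_le_p p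
    rw [show k + 1 + 2 = (k + 2) + 1 from rfl, tup_succ]
    push_cast
    calc ∑ a ∈ nz p, ((tup f (k + 2) ((f a)⁻¹ * w)).card : ℝ)
        ≤ ∑ _a ∈ nz p, ((p : ℝ) - 1) ^ k * bd f := sum_le_sum (fun a _ => ih _)
      _ = ((p : ℝ) - 1) ^ (k + 1) * bd f := by
          rw [sum_const, card_nz, nsmul_eq_mul, Nat.cast_sub hp]
          push_cast; ring

theorem tup_one_sq (f : ZMod p → V) (hf : ∀ a, a ≠ 0 → f a * f (-a) = 1) (w : V) :
    ((tup f 1 w).card : ℝ) ^ 2 ≤ bd f := by
  classical
  refine le_trans ?_ (prs0_le_bd f hf (w * w))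
  have : (tup f 1 w).card ^ 2 ≤ (prs0 f (w * w)).card := by
    rw [sq, ← card_product]
    refine card_le_card_of_injOn (fun x => (x.1 0, x.2 0)) ?_ ?_
    · intro x hx
      have hx' := mem_coe.1 hx
      simp only [tup, mem_product, mem_filter, Fintype.mem_piFinset, Fin.prod_univ_one] at hx'
      refine mem_coe.2 ?_
      simp only [prs0, mem_filter, mem_product]
      exact ⟨⟨hx'.1.1 0, hx'.2.1 0⟩, by rw [hx'.1.2, hx'.2.2]⟩
    · intro x _ y _ h
      simp only [Prod.mk.injEq] at h
      have e1 : x.1 = y.1 := by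
        funext i; rw [Subsingleton.elim i 0]; exact h.1
      have e2 : x.2 = y.2 := by
        funext i; rw [Subsingleton.elim i 0]; exact h.2
      exact Prod.ext e1 e2
  exact_mod_cast this

end Pool.Agent.Helper29.Rohr
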