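import Mathlib

/-!
Definitions for products of gamma values at rational points with a common denominator.
-/

namespace Pool.Agent.Helper29.Rohr

/-- The `r`-tuples of integers between `1` and `D - 1`. -/
def box (D r : ℕ) : Finset (Fin r → ℕ) := Fintype.piFinset (fun _ : Fin r => Finset.Ioo 0 D)

/-- The product of the gamma values at the points `j_i / D` is an algebraic multiple of `z`. -/
def GammaMult (D r : ℕ) (j : Fin r → ℕ) (z : ℝ) : Prop :=
  ∃ α : ℝ, IsAlgebraic ℚ α ∧ ∏ i, Real.Gamma ((j i : ℝ) / D) = α * z

/-- The fractional-part identity of the question for the points `j_i / D`, common denominator `D`. -/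
def FracId (D r : ℕ) (j : Fin r → ℕ) : Prop :=
  ∀ m : ℕ, 1 ≤ m → m < D → Nat.Coprime m D →
    ∑ i, Int.fract ((m : ℚ) * ((j i : ℚ) / D)) = (r : ℚ) / 2

open Classical in
/-- Number of `r`-tuples of level `D` whose gamma product is an algebraic multiple of `z`. -/
noncomputable def count (D r : ℕ) (z : ℝ) : ℕ :=
  ((box D r).filter (fun j => GammaMult D r j z)).card

open Classical in
/-- Number of quadruples `(j_1, .., j_4)` of level `D` with `(j_1 + .. + j_4) / D` an integer
which violate the `only if` half of the question: the gamma product is an algebraic multiple of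
`π ^ (4 / 2)`, but the fractional-part identity fails. -/
noncomputable def badQuads (D : ℕ) : ℕ :=
  ((box D 4).filter (fun j => D ∣ ∑ i, j i ∧
    GammaMult D 4 j (Real.pi ^ ((4 : ℝ) / 2)) ∧ ¬ FracId D 4 j)).card

/-- The constant in the bound: `2` for prime `D`, and
`160 (D / φ(D)) τ(D) (1 + log D) ^ 2` otherwise. -/
noncomputable def classBound (D : ℕ) : ℝ :=
  if D.Prime then 2 else
    160 * (D / Nat.totient D) * (D.divisors.card) * (1 + Real.log D) ^ 2

end Pool.Agent.Helper29.Rohr
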