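import Mathlib

/-!
Four-term relations between the fractional parts at prime level: if
`(t a) + (t b) + (t c) + (t d) = 2 p` (least nonnegative residues) for all nonzero `t`, then two of
the four residues add up to zero.
-/

namespace Pool.Agent.Helper29.Rohr

/-- core floor argument -/
lemma core (p x y z : ℕ) (hxy : y ≤ x) (hy : 2 ≤ y) (hz : x + y = z + 1) (hz2 : 2 * z < p)
    (h : ∀ m, 1 ≤ m → m < p → (m * z) / p = (m * x) / p + (m * y) / p) : False := by
  have hp : 0 < p := by omega
  -- minimal m with m * y ≥ p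
  have hex : ∃ m, p ≤ m * y := ⟨p, Nat.le_mul_of_pos_right p (by omega)⟩
  obtain ⟨m, hm1, hm2⟩ : ∃ m, p ≤ m * y ∧ ∀ k, k < m → k * y < p := by
    refine ⟨Nat.find hex, Nat.find_spec hex, fun k hk => ?_⟩
    have := Nat.find_min hex hk
    omega
  have hmp : m < p := by
    by_contra hcon
    have hpm : p ≤ m := by omega
    have h1 := hm2 (p - 1) (by omega)
    have h2 : (p - 1) * 2 ≤ (p - 1) * y := Nat.mul_le_mul_left _ hy
    omega
  have hm3 : 2 ≤ m := by
    by_contra hcon
    have : m = 0 ∨ m = 1 := by omega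
    rcases this with rfl | rfl <;> omega
  obtain ⟨j, hj⟩ : ∃ j, j = (m * x) / p := ⟨_, rfl⟩
  have hj1 : j * p ≤ m * x := by rw [hj]; exact Nat.div_mul_le_self _ _
  have hj2 : m * x < (j + 1) * p := by
    have := Nat.lt_div_mul_add (a := m * x) hp
    rw [← hj] at this
    have e : (j + 1) * p = j * p + p := by ring
    omega
  have hjx : j < x := by
    by_contra hcon
    have : x ≤ j := by omega
    have h1 : x * p ≤ j * p := Nat.mul_le_mul_right _ this
    have h2 : m * x < p * x := Nat.mul_lt_mul_of_pos_right hmp (by omega)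
    rw [mul_comm p x] at h2
    omega
  have hmy : 1 ≤ (m * y) / p := (Nat.le_div_iff_mul_le hp).2 (by omega)
  have hmz : (j + 1) * p ≤ m * z := by
    have h1 := h m (by omega) hmp
    rw [← Nat.le_div_iff_mul_le hp]
    omega
  -- index m - 1
  have hm1y : ((m - 1) * y) / p = 0 := Nat.div_eq_of_lt (hm2 (m - 1) (by omega))
  have hm1z : ((m - 1) * z) / p = ((m - 1) * x) / p := by
    rw [h (m - 1) (by omega) (by omega), hm1y, add_zero]
  have hm1x : ((m - 1) * x) / p ≤ j := by
    rw [hj]; exact Nat.div_le_div_right (Nat.mul_le_mul_right _ (by omega))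
  have hm1z' : (m - 1) * z < (j + 1) * p := by
    rw [← Nat.div_lt_iff_lt_mul hp]
    omega
  -- minimal M with M * x ≥ (j + 1) * p
  have hpx : (j + 1) * p ≤ p * x := by
    rw [mul_comm p x]; exact Nat.mul_le_mul_right _ hjx
  have hex2 : ∃ M, (j + 1) * p ≤ M * x := ⟨p, hpx⟩
  obtain ⟨M, hM1, hM2⟩ : ∃ M, (j + 1) * p ≤ M * x ∧ ∀ k, k < M → k * x < (j + 1) * p := by
    refine ⟨Nat.find hex2, Nat.find_spec hex2, fun k hk => ?_⟩
    have := Nat.find_min hex2 hk
    omega
  have hMm : m < M := by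
    by_contra hcon
    have : M * x ≤ m * x := Nat.mul_le_mul_right _ (by omega)
    omega
  have hMp : M ≤ p := by
    by_contra hcon
    have h1 := hM2 p (by omega)
    omega
  have hMz : (j + 2) * p ≤ M * z := by
    rcases Nat.lt_or_ge M p with hlt | hge
    · have h1 := h M (by omega) hlt
      have h2 : j + 1 ≤ (M * x) / p := (Nat.le_div_iff_mul_le hp).2 hM1
      have h3 : 1 ≤ (M * y) / p := by
        refine (Nat.le_div_iff_mul_le hp).2 ?_
        have : m * y ≤ M * y := Nat.mul_le_mul_right _ hMm.le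
        omega
      rw [← Nat.le_div_iff_mul_le hp]
      omega
    · have hMe : M = p := le_antisymm hMp hge
      rw [hMe, mul_comm p z]
      exact Nat.mul_le_mul_right _ (by omega)
  have hM1x : (M - 1) * x < (j + 1) * p := hM2 (M - 1) (by omega)
  -- q
  obtain ⟨q, hq⟩ : ∃ q, q = p / z := ⟨_, rfl⟩
  have hzpos : 0 < z := by omega
  have hq1 : q * z ≤ p := by rw [hq]; exact Nat.div_mul_le_self _ _
  have hq2 : p < (q + 1) * z := by
    have := Nat.lt_div_mul_add (a := p) hzpos
    rw [← hq] at this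
    have e : (q + 1) * z = q * z + z := by ring
    omega
  have hqp : q + 1 < p := by
    have h3 : 3 ≤ z := by omega
    have : q ≤ p / 3 := by
      rw [hq]; exact Nat.div_le_div_left h3 (by norm_num)
    omega
  have hqx : p ≤ (q + 1) * x := by
    have h1 := h (q + 1) (by omega) hqp
    have h2 : 1 ≤ ((q + 1) * z) / p := (Nat.le_div_iff_mul_le hp).2 (by omega)
    by_contra hcon
    have h3 : ((q + 1) * x) / p = 0 := Nat.div_eq_of_lt (by omega)
    have h4 : ((q + 1) * y) / p = 0 := by
      refine Nat.div_eq_of_lt ?_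
      have : (q + 1) * y ≤ (q + 1) * x := Nat.mul_le_mul_left _ hxy
      omega
    omega
  have hMq : q + 1 ≤ M - m + 1 := by
    by_contra hcon
    have h1 : M - m + 1 ≤ q := by omega
    have h2 : (M - m + 1) * z ≤ q * z := Nat.mul_le_mul_right _ h1
    have h3 : M * z = (M - m + 1) * z + (m - 1) * z := by
      rw [← Nat.add_mul]; congr 1; omega
    have e : (j + 2) * p = (j + 1) * p + p := by ring
    omega
  -- (m-2) x < j p
  have hm2x : (m - 2) * x < j * p := by
    by_contra hcon
    have h1 : (M - 1) * x = (M - m + 1) * x + (m - 2) * x := by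
      rw [← Nat.add_mul]; congr 1; omega
    have h2 : (q + 1) * x ≤ (M - m + 1) * x := Nat.mul_le_mul_right _ hMq
    have e : (j + 1) * p = j * p + p := by ring
    omega
  have hm2z : (m - 2) * z < j * p := by
    rcases Nat.eq_zero_or_pos (m - 2) with h0 | h0
    · rw [h0] at hm2x ⊢
      simpa using hm2x
    · have h1 := h (m - 2) (by omega) (by omega)
      have h2 : ((m - 2) * y) / p = 0 := Nat.div_eq_of_lt (hm2 (m - 2) (by omega))
      have h3 : ((m - 2) * x) / p < j := (Nat.div_lt_iff_lt_mul hp).2 hm2x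
      rw [← Nat.div_lt_iff_lt_mul hp]
      omega
  have hfin : m * z = (m - 2) * z + 2 * z := by
    rw [← Nat.add_mul]; congr 1; omega
  have e : (j + 1) * p = j * p + p := by ring
  omega

lemma floor_compl (p m b : ℕ) (hp : p.Prime) (hm : 1 ≤ m) (hmp : m < p) (hb : 0 < b)
    (hbp : b < p) : (m * b) / p + (m * (p - b)) / p = m - 1 := by
  have h1 : ¬ p ∣ m * b := by
    intro h
    rcases (Nat.Prime.dvd_mul hp).1 h with h | h
    · exact absurd (Nat.le_of_dvd (by omega) h) (by omega)
    · exact absurd (Nat.le_of_dvd (by omega) h) (by omega)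
  have h3 : 0 < (m * b) % p := Nat.pos_of_ne_zero (fun h => h1 (Nat.dvd_of_mod_eq_zero h))
  have h4 : (m * b) % p < p := Nat.mod_lt _ hp.pos
  have h5 := Nat.div_add_mod (m * b) p
  set u := (m * b) / p
  set v := (m * b) % p
  have h6 : m * (p - b) = p * (m - 1 - u) + (p - v) := by
    have hu : u ≤ m - 1 := by
      by_contra hcon
      have : m ≤ u := by omega
      have h7 : p * m ≤ p * u := Nat.mul_le_mul_left _ this
      have h8 : m * b < m * p := Nat.mul_lt_mul_of_pos_left hbp (by omega)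
      nlinarith
    zify [hbp.le, hu, hm, h4.le]
    have h5' : (p : ℤ) * u + v = m * b := by exact_mod_cast h5
    linear_combination h5'
  have h7 : (m * (p - b)) / p = m - 1 - u := by
    rw [h6, Nat.mul_add_div hp.pos, Nat.div_eq_of_lt (by omega), add_zero]
  have hu : u ≤ m - 1 := by
    by_contra hcon
    have : m ≤ u := by omega
    have h7 : p * m ≤ p * u := Nat.mul_le_mul_left _ this
    have h8 : m * b < m * p := Nat.mul_lt_mul_of_pos_left hbp (by omega)
    nlinarith
  omega

/-- normalized version, ordered -/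
lemma norm_aux (p : ℕ) (hp : p.Prime) (b c d : ℕ) (hb : 0 < b) (hbp : b < p)
    (hc : 0 < c) (hcp : c < p) (_hd : 0 < d) (_hdp : d < p) (hsum : b + c + d = 2 * p - 1)
    (hd2 : 2 * d < p)
    (h : ∀ m, 1 ≤ m → m < p → (m * b) / p + (m * c) / p + (m * d) / p = 2 * (m - 1)) :
    b = p - 1 ∨ c = p - 1 := by
  by_contra hcon
  push Not at hcon
  obtain ⟨h1, h2⟩ := hcon
  have key : ∀ m, 1 ≤ m → m < p →
      (m * d) / p = (m * (p - b)) / p + (m * (p - c)) / p := by
    intro m hm hmp
    have e1 := floor_compl p m b hp hm hmp hb hbp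
    have e2 := floor_compl p m c hp hm hmp hc hcp
    have e3 := h m hm hmp
    omega
  rcases le_total (p - b) (p - c) with hle | hle
  · refine core p (p - c) (p - b) d hle (by omega) (by omega) hd2 ?_
    intro m hm hmp
    rw [key m hm hmp]; ring
  · exact core p (p - b) (p - c) d hle (by omega) (by omega) hd2 key

lemma norm4 (p : ℕ) (hp : p.Prime) (b c d : ℕ) (hb : 0 < b) (hbp : b < p)
    (hc : 0 < c) (hcp : c < p) (hd : 0 < d) (hdp : d < p)
    (h : ∀ m, 1 ≤ m → m < p → m + (m * b) % p + (m * c) % p + (m * d) % p = 2 * p) :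
    b = p - 1 ∨ c = p - 1 ∨ d = p - 1 := by
  rcases hp.eq_two_or_odd' with rfl | hodd
  · left; omega
  have hp3 : 3 ≤ p := by
    have := hp.two_le
    rcases hodd with ⟨k, hk⟩
    omega
  have hs : b + c + d = 2 * p - 1 := by
    have := h 1 le_rfl (by omega)
    rw [one_mul, one_mul, one_mul, Nat.mod_eq_of_lt hbp, Nat.mod_eq_of_lt hcp,
      Nat.mod_eq_of_lt hdp] at this
    omega
  have hfl : ∀ m, 1 ≤ m → m < p → (m * b) / p + (m * c) / p + (m * d) / p = 2 * (m - 1) := by
    intro m hm hmp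
    have e := h m hm hmp
    have e1 := Nat.div_add_mod (m * b) p
    have e2 := Nat.div_add_mod (m * c) p
    have e3 := Nat.div_add_mod (m * d) p
    have e4 : m * b + m * c + m * d = m * (2 * p - 1) := by rw [← hs]; ring
    have e5 : p * ((m * b) / p + (m * c) / p + (m * d) / p) = p * (2 * (m - 1)) := by
      zify [hm, (by omega : 1 ≤ 2 * p)] at *
      linear_combination e1 + e2 + e3 + e4 - e
    exact Nat.eq_of_mul_eq_mul_left hp.pos e5
  have h2 := hfl 2 (by omega) (by omega)
  have b1 : (2 * b) / p ≤ 1 := by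
    rw [← Nat.lt_succ_iff, Nat.div_lt_iff_lt_mul hp.pos]; omega
  have c1 : (2 * c) / p ≤ 1 := by
    rw [← Nat.lt_succ_iff, Nat.div_lt_iff_lt_mul hp.pos]; omega
  have d1 : (2 * d) / p ≤ 1 := by
    rw [← Nat.lt_succ_iff, Nat.div_lt_iff_lt_mul hp.pos]; omega
  have hcase : (2 * b) / p = 0 ∨ (2 * c) / p = 0 ∨ (2 * d) / p = 0 := by omega
  rcases hcase with h0 | h0 | h0
  · have hlt : 2 * b < p := by
      have := (Nat.div_eq_zero_iff).1 h0
      omega
    have := norm_aux p hp c d b hc hcp hd hdp hb hbp (by omega) hlt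
      (fun m hm hmp => by have := hfl m hm hmp; omega)
    tauto
  · have hlt : 2 * c < p := by
      have := (Nat.div_eq_zero_iff).1 h0
      omega
    have := norm_aux p hp b d c hb hbp hd hdp hc hcp (by omega) hlt
      (fun m hm hmp => by have := hfl m hm hmp; omega)
    tauto
  · have hlt : 2 * d < p := by
      have := (Nat.div_eq_zero_iff).1 h0
      omega
    have := norm_aux p hp b c d hb hbp hc hcp hd hdp (by omega) hlt hfl
    tauto

/-- the four-term lemma over `ZMod p` -/
theorem four_term (p : ℕ) [hp : Fact p.Prime] (a b c d : ZMod p) (ha : a ≠ 0) (hb : b ≠ 0)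
    (hc : c ≠ 0) (hd : d ≠ 0)
    (h : ∀ t : ZMod p, t ≠ 0 →
      (t * a).val + (t * b).val + (t * c).val + (t * d).val = 2 * p) :
    a + b = 0 ∨ a + c = 0 ∨ a + d = 0 := by
  have hpp := hp.out
  have : NeZero p := ⟨hpp.ne_zero⟩
  have hpos : ∀ u : ZMod p, u ≠ 0 → 0 < u.val := fun u hu =>
    Nat.pos_of_ne_zero (fun h0 => hu ((ZMod.val_eq_zero u).1 h0))
  have key := norm4 p hpp (a⁻¹ * b).val (a⁻¹ * c).val (a⁻¹ * d).val
    (hpos _ (mul_ne_zero (inv_ne_zero ha) hb)) (ZMod.val_lt _)
    (hpos _ (mul_ne_zero (inv_ne_zero ha) hc)) (ZMod.val_lt _)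
    (hpos _ (mul_ne_zero (inv_ne_zero ha) hd)) (ZMod.val_lt _) (by
      intro m hm hmp
      have hm0 : ((m : ZMod p)) ≠ 0 := by
        intro h0
        rw [ZMod.natCast_eq_zero_iff] at h0
        exact absurd (Nat.le_of_dvd (by omega) h0) (by omega)
      have e := h ((m : ZMod p) * a⁻¹) (mul_ne_zero hm0 (inv_ne_zero ha))
      have e0 : ((m : ZMod p) * a⁻¹ * a).val = m := by
        rw [mul_assoc, inv_mul_cancel₀ ha, mul_one, ZMod.val_natCast, Nat.mod_eq_of_lt hmp]
      have e1 : ∀ u : ZMod p, ((m : ZMod p) * a⁻¹ * u).val = (m * (a⁻¹ * u).val) % p := by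
        intro u
        rw [mul_assoc, ZMod.val_mul, ZMod.val_natCast, Nat.mod_eq_of_lt hmp]
      rw [e0, e1, e1, e1] at e
      exact e)
  have conv : ∀ u : ZMod p, (a⁻¹ * u).val = p - 1 → a + u = 0 := by
    intro u hu
    have h1 : ((a⁻¹ * u).val : ZMod p) = -1 := by
      rw [hu, Nat.cast_sub hpp.one_lt.le]
      simp
    rw [ZMod.natCast_zmod_val] at h1
    have h2 : u = a * (a⁻¹ * u) := by rw [← mul_assoc, mul_inv_cancel₀ ha, one_mul]
    rw [h2, h1]; ring
  rcases key with h | h | h
  · exact Or.inl (conv _ h)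
  · exact Or.inr (Or.inl (conv _ h))
  · exact Or.inr (Or.inr (conv _ h))

end Pool.Agent.Helper29.Rohr
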