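import Mathlib

/-!
Second moment of sums of the sawtooth over dilates, through the finite Fourier expansion.
-/

namespace Pool.Agent.Helper29.Rohr

open Finset

variable {D : ℕ} [NeZero D]

/-- standard additive character -/
noncomputable abbrev ee (x : ZMod D) : ℂ := ZMod.stdAddChar x

/-- the sawtooth -/
noncomputable def saw (x : ZMod D) : ℝ := (x.val : ℝ) / D - 1 / 2

/-- Fourier coefficients of the sawtooth -/
noncomputable def cf (j : ZMod D) : ℂ := (1 / (D : ℂ)) * ∑ x : ZMod D, (saw x : ℂ) * ee (-(j * x))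

lemma D_ne : (D : ℂ) ≠ 0 := Nat.cast_ne_zero.2 (NeZero.ne D)

lemma D_pos : (0 : ℝ) < D := Nat.cast_pos.2 (Nat.pos_of_ne_zero (NeZero.ne D))

lemma sum_ee (b : ZMod D) : ∑ x : ZMod D, ee (x * b) = if b = 0 then (D : ℂ) else 0 := by
  have := AddChar.sum_mulShift (R' := ℂ) b (ZMod.isPrimitive_stdAddChar D)
  rw [this, ZMod.card]
  split_ifs <;> simp

lemma ee_add (x y : ZMod D) : ee (x + y) = ee x * ee y := AddChar.map_add_eq_mul _ _ _

lemma ee_zero : ee (0 : ZMod D) = 1 := AddChar.map_zero_eq_one _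

lemma inversion (x : ZMod D) : (saw x : ℂ) = ∑ j : ZMod D, cf j * ee (j * x) := by
  have h1 : ∑ j : ZMod D, cf j * ee (j * x) =
      (1 / (D : ℂ)) * ∑ y : ZMod D, (saw y : ℂ) * ∑ j : ZMod D, ee (j * (x - y)) := by
    unfold cf
    simp only [mul_sum, sum_mul]
    rw [sum_comm]
    refine sum_congr rfl (fun y _ => sum_congr rfl (fun j _ => ?_))
    rw [mul_sub, sub_eq_add_neg, ee_add]
    ring
  rw [h1]
  have h2 : ∑ y : ZMod D, (saw y : ℂ) * ∑ j : ZMod D, ee (j * (x - y)) = (saw x : ℂ) * D := by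
    rw [sum_eq_single x]
    · rw [sum_ee, if_pos (sub_self x)]
    · intro y _ hy
      rw [sum_ee, if_neg (sub_ne_zero.2 hy.symm), mul_zero]
    · intro h; exact absurd (mem_univ x) h
  have hD : (D : ℂ) ≠ 0 := D_ne
  rw [h2]
  field_simp

lemma sum_zmod {M : Type*} [AddCommMonoid M] (g : ℕ → M) :
    ∑ x : ZMod D, g x.val = ∑ k ∈ range D, g k := by
  refine sum_bij (fun x _ => x.val) (fun x _ => mem_range.2 (ZMod.val_lt x))
    (fun x _ y _ h => ZMod.val_injective D h) ?_ (fun _ _ => rfl)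
  intro k hk
  exact ⟨(k : ZMod D), mem_univ _, ZMod.val_cast_of_lt (mem_range.1 hk)⟩

lemma sum_val_pow (ω : ℂ) (n : ℕ) :
    (ω - 1) * ∑ k ∈ range n, (k : ℂ) * ω ^ k = n * ω ^ n - ∑ k ∈ range n, ω ^ (k + 1) := by
  induction n with
  | zero => simp
  | succ n ih =>
    rw [sum_range_succ, sum_range_succ, mul_add, ih]
    push_cast
    ring

lemma ee_pow (j x : ZMod D) : ee (j * x) = (ee j) ^ x.val := by
  rw [← AddChar.map_nsmul_eq_pow]
  congr 1
  rw [nsmul_eq_mul, ZMod.natCast_zmod_val, mul_comm]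

lemma cf_zero : cf (0 : ZMod D) = -1 / (2 * D) := by
  unfold cf
  have h1 : ∑ x : ZMod D, (saw x : ℂ) * ee (-(0 * x)) = -1 / 2 := by
    have e1 : ∀ x : ZMod D, (saw x : ℂ) * ee (-(0 * x)) =
        (fun k : ℕ => ((k : ℂ) / D - 1 / 2)) x.val := by
      intro x
      rw [zero_mul, neg_zero, ee_zero, mul_one]
      unfold saw
      push_cast
      rfl
    rw [sum_congr rfl (fun x _ => e1 x), sum_zmod (fun k : ℕ => ((k : ℂ) / D - 1 / 2))]
    rw [sum_sub_distrib, ← sum_div, sum_const, card_range, nsmul_eq_mul]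
    have h2 : (∑ k ∈ range D, (k : ℂ)) * 2 = D * (D - 1) := by
      have := Finset.sum_range_id_mul_two D
      have h3 : ((∑ i ∈ range D, i : ℕ) : ℂ) * 2 = (D * (D - 1) : ℕ) := by exact_mod_cast this
      rw [Nat.cast_mul, Nat.cast_sub (Nat.one_le_iff_ne_zero.2 (NeZero.ne D))] at h3
      push_cast at h3
      exact h3
    have h4 : (∑ k ∈ range D, (k : ℂ)) = D * (D - 1) / 2 := by
      rw [← h2]; ring
    have hD : (D : ℂ) ≠ 0 := D_ne
    rw [h4]
    field_simp
    ring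
  rw [h1]
  field_simp

lemma ee_ne_one (j : ZMod D) (hj : j ≠ 0) : ee j ≠ 1 := by
  intro h
  rw [← ee_zero (D := D)] at h
  exact hj (ZMod.injective_stdAddChar (N := D) h)

lemma cf_ne (j : ZMod D) (hj : j ≠ 0) : cf j = 1 / (D * (ee (-j) - 1)) := by
  have hω : ee (-j) ≠ 1 := ee_ne_one _ (neg_ne_zero.2 hj)
  have hω' : ee (-j) - 1 ≠ 0 := sub_ne_zero.2 hω
  set ω := ee (-j) with hωd
  have hpow : ω ^ D = 1 := by
    rw [hωd, ← AddChar.map_nsmul_eq_pow]
    rw [nsmul_eq_mul, CharP.cast_eq_zero, zero_mul]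
    exact ee_zero
  have hsum : ∑ k ∈ range D, ω ^ k = 0 := by
    have := mul_geom_sum ω D
    rw [hpow, sub_self] at this
    exact (mul_eq_zero.1 this).resolve_left hω'
  have hsum1 : ∑ k ∈ range D, ω ^ (k + 1) = 0 := by
    have : ∑ k ∈ range D, ω ^ (k + 1) = ω * ∑ k ∈ range D, ω ^ k := by
      rw [mul_sum]; exact sum_congr rfl (fun k _ => by ring)
    rw [this, hsum, mul_zero]
  have hk : ∑ k ∈ range D, (k : ℂ) * ω ^ k = D / (ω - 1) := by
    have := sum_val_pow ω D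
    rw [hpow, hsum1, sub_zero, mul_one] at this
    field_simp
    linear_combination this
  unfold cf
  have e1 : ∀ x : ZMod D, (saw x : ℂ) * ee (-(j * x)) =
      (fun k : ℕ => ((k : ℂ) / D - 1 / 2) * ω ^ k) x.val := by
    intro x
    have : ee (-(j * x)) = ω ^ x.val := by
      rw [← neg_mul, ee_pow]
    rw [this]
    unfold saw
    push_cast
    rfl
  rw [sum_congr rfl (fun x _ => e1 x), sum_zmod (fun k : ℕ => ((k : ℂ) / D - 1 / 2) * ω ^ k)]
  have e2 : ∑ k ∈ range D, ((k : ℂ) / D - 1 / 2) * ω ^ k =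
      (1 / D) * ∑ k ∈ range D, (k : ℂ) * ω ^ k - (1 / 2) * ∑ k ∈ range D, ω ^ k := by
    rw [mul_sum, mul_sum, ← sum_sub_distrib]
    exact sum_congr rfl (fun k _ => by ring)
  have hD : (D : ℂ) ≠ 0 := D_ne
  rw [e2, hk, hsum]
  field_simp
  ring

lemma norm_ee_sub_one (j : ZMod D) :
    ‖ee j - 1‖ = 2 * |Real.sin (Real.pi * j.val / D)| := by
  have h1 : ee j = Complex.exp (Complex.I * ((2 * Real.pi * j.val / D : ℝ) : ℂ)) := by
    have := ZMod.stdAddChar_coe (N := D) (j.val : ℤ)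
    rw [Int.cast_natCast, ZMod.natCast_zmod_val] at this
    unfold ee
    rw [this]
    congr 1
    push_cast
    ring
  rw [h1, Complex.norm_exp_I_mul_ofReal_sub_one, norm_mul, Real.norm_eq_abs, Real.norm_eq_abs,
    abs_of_pos (by norm_num : (0 : ℝ) < 2)]
  congr 3
  ring

lemma sin_lower (x : ℝ) (h0 : 0 ≤ x) (h1 : x ≤ 1) : 2 * x * (1 - x) ≤ Real.sin (Real.pi * x) := by
  rcases le_total x (1 / 2) with h | h
  · have h2 := Real.mul_le_sin (x := Real.pi * x) (by positivity) (by nlinarith [Real.pi_pos])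
    have h3 : 2 / Real.pi * (Real.pi * x) = 2 * x := by field_simp [Real.pi_ne_zero]
    rw [h3] at h2
    nlinarith
  · have h2 := Real.mul_le_sin (x := Real.pi * (1 - x))
      (mul_nonneg Real.pi_pos.le (by linarith)) (by nlinarith [Real.pi_pos])
    have h3 : 2 / Real.pi * (Real.pi * (1 - x)) = 2 * (1 - x) := by field_simp [Real.pi_ne_zero]
    rw [h3] at h2
    have h4 : Real.sin (Real.pi * (1 - x)) = Real.sin (Real.pi * x) := by
      rw [mul_sub, mul_one, Real.sin_pi_sub]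
    rw [h4] at h2
    nlinarith

lemma norm_cf_le (j : ZMod D) (hj : j ≠ 0) :
    ‖cf j‖ ≤ (1 / 4) * (1 / (j.val : ℝ) + 1 / ((D : ℝ) - j.val)) := by
  have hk0 : (0 : ℝ) < j.val :=
    Nat.cast_pos.2 (Nat.pos_of_ne_zero (fun h0 => hj ((ZMod.val_eq_zero j).1 h0)))
  have hkD : (j.val : ℝ) < D := Nat.cast_lt.2 (ZMod.val_lt j)
  have hD : (0 : ℝ) < D := D_pos
  rw [cf_ne j hj, norm_div, norm_one, norm_mul, Complex.norm_natCast]
  have h1 : ‖ee (-j) - 1‖ = ‖ee j - 1‖ := by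
    have h2 : ee (-j) - 1 = -(ee (-j)) * (ee j - 1) := by
      have : ee (-j) * ee j = 1 := by rw [← ee_add, neg_add_cancel, ee_zero]
      linear_combination this
    have h3 : ‖ee (-j)‖ = 1 := AddChar.norm_apply _ _
    rw [h2, norm_mul, norm_neg, h3, one_mul]
  rw [h1, norm_ee_sub_one]
  have h4 := sin_lower ((j.val : ℝ) / D) (by positivity) ((div_le_one hD).2 hkD.le)
  rw [← mul_div_assoc Real.pi] at h4
  have h5 : 0 < 2 * ((j.val : ℝ) / D) * (1 - (j.val : ℝ) / D) := by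
    have : (j.val : ℝ) / D < 1 := (div_lt_one hD).2 hkD
    have h6 : 0 < (j.val : ℝ) / D := by positivity
    have : 0 < 1 - (j.val : ℝ) / D := by linarith
    positivity
  rw [abs_of_pos (lt_of_lt_of_le h5 h4)]
  have h6 : (1 / 4) * (1 / (j.val : ℝ) + 1 / ((D : ℝ) - j.val)) =
      1 / (D * (2 * (2 * ((j.val : ℝ) / D) * (1 - (j.val : ℝ) / D)))) := by
    have : (D : ℝ) - j.val ≠ 0 := by linarith
    field_simp
    ring
  rw [h6]
  apply one_div_le_one_div_of_le
  · positivity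
  · exact mul_le_mul_of_nonneg_left (mul_le_mul_of_nonneg_left h4 (by norm_num)) hD.le

end Pool.Agent.Helper29.Rohr
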