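import Pool.Agent.Helper29.Rohr.Comb

/-!
Abstract counting with a general notion of admissible quadruples.
-/

namespace Pool.Agent.Helper29.Rohr

open Finset

variable {p : ℕ} [NeZero p] {V : Type*} [CommGroup V] [DecidableEq V]

open Classical in
/-- zero-sum quadruples with product one which are not admissible -/
noncomputable def quadsG (f : ZMod p → V) (G : ZMod p → ZMod p → ZMod p → ZMod p → Prop) :
    Finset (ZMod p × ZMod p × ZMod p × ZMod p) :=
  (nz p ×ˢ nz p ×ˢ nz p ×ˢ nz p).filter (fun x =>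
    x.1 + x.2.1 + x.2.2.1 + x.2.2.2 = 0 ∧ f x.1 * f x.2.1 * f x.2.2.1 * f x.2.2.2 = 1 ∧
    ¬ G x.1 x.2.1 x.2.2.1 x.2.2.2)

open Classical in
/-- pairs with the same sum as `(a, b)` which form an admissible quadruple with it -/
noncomputable def cls (G : ZMod p → ZMod p → ZMod p → ZMod p → Prop) (a b : ZMod p) :
    Finset (ZMod p × ZMod p) :=
  (nz p ×ˢ nz p).filter (fun y => a + b = y.1 + y.2 ∧ G a b (-y.1) (-y.2))

lemma card_pp_leG (f : ZMod p → V) (hf : ∀ a, a ≠ 0 → f a * f (-a) = 1)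
    (G : ZMod p → ZMod p → ZMod p → ZMod p → Prop) (U : ℝ)
    (hU : ∀ a b, a ≠ 0 → b ≠ 0 → a + b ≠ 0 → ((cls G a b).card : ℝ) ≤ U) (w : V) :
    ((pp f w).card : ℝ) ≤ U * (prs f w).card + (quadsG f G).card := by
  classical
  have hsplit : (pp f w).card = ((pp f w).filter
      (fun x => G x.1.1 x.1.2 (-x.2.1) (-x.2.2))).card +
      ((pp f w).filter (fun x => ¬ G x.1.1 x.1.2 (-x.2.1) (-x.2.2))).card :=
    (card_filter_add_card_filter_not _).symm
  have h1 : (((pp f w).filter (fun x => G x.1.1 x.1.2 (-x.2.1) (-x.2.2))).card : ℝ) ≤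
      U * (prs f w).card := by
    have hfib := card_eq_sum_card_fiberwise
      (s := (pp f w).filter (fun x => G x.1.1 x.1.2 (-x.2.1) (-x.2.2)))
      (f := fun x => x.1) (t := prs f w) (by
        intro x hx
        have hx' := mem_coe.1 hx
        simp only [pp, mem_filter, mem_product] at hx'
        exact mem_coe.2 hx'.1.1.1)
    rw [hfib, Nat.cast_sum]
    calc ∑ b ∈ prs f w, ((((pp f w).filter
          (fun x => G x.1.1 x.1.2 (-x.2.1) (-x.2.2))).filter (fun x => x.1 = b)).card : ℝ)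
        ≤ ∑ _b ∈ prs f w, U := by
          refine sum_le_sum (fun b hb => ?_)
          have hb' := hb
          simp only [prs, mem_filter, mem_product, mem_nz] at hb'
          refine le_trans ?_ (hU b.1 b.2 hb'.1.1 hb'.1.2 hb'.2.1)
          refine Nat.cast_le.2 (card_le_card_of_injOn (fun x => x.2) ?_ ?_)
          · intro x hx
            have hx' := mem_coe.1 hx
            simp only [pp, mem_filter, mem_product, prs, mem_nz] at hx'
            obtain ⟨⟨⟨⟨⟨h1, h2⟩, ⟨h3, h4⟩⟩, h5⟩, h6⟩, h7⟩ := hx'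
            refine mem_coe.2 ?_
            simp only [cls, mem_filter, mem_product, mem_nz]
            rw [← h7]
            exact ⟨h3, h5, h6⟩
          · intro x hx y hy hxy
            have hx' := mem_coe.1 hx
            have hy' := mem_coe.1 hy
            simp only [mem_filter] at hx' hy'
            exact Prod.ext (hx'.2.trans hy'.2.symm) hxy
      _ = U * (prs f w).card := by rw [sum_const, nsmul_eq_mul, mul_comm]
  have h2 : ((pp f w).filter (fun x => ¬ G x.1.1 x.1.2 (-x.2.1) (-x.2.2))).card ≤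
      (quadsG f G).card := by
    refine card_le_card_of_injOn (fun x => (x.1.1, x.1.2, -x.2.1, -x.2.2)) ?_ ?_
    · intro x hx
      have hx' := mem_coe.1 hx
      simp only [pp, mem_filter, mem_product, prs, mem_nz] at hx'
      obtain ⟨⟨⟨⟨⟨h1, h2⟩, h3, h4⟩, ⟨h5, h6⟩, h7, h8⟩, h9⟩, h10⟩ := hx'
      have e1 : f (-x.2.1) = (f x.2.1)⁻¹ := (inv_eq_of_mul_eq_one_right (hf _ h5)).symm
      have e2 : f (-x.2.2) = (f x.2.2)⁻¹ := (inv_eq_of_mul_eq_one_right (hf _ h6)).symm
      refine mem_coe.2 ?_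
      simp only [quadsG, mem_filter, mem_product, mem_nz]
      refine ⟨⟨h1, h2, neg_ne_zero.2 h5, neg_ne_zero.2 h6⟩, ?_, ?_, h10⟩
      · rw [h9]; ring
      · rw [e1, e2, h4, mul_assoc, ← mul_inv, h8, mul_inv_cancel]
    · intro x _ y _ hxy
      simp only [Prod.mk.injEq, neg_inj] at hxy
      obtain ⟨a, b, c, d⟩ := hxy
      ext <;> simp [a, b, c, d]
  have h2' : (((pp f w).filter (fun x => ¬ G x.1.1 x.1.2 (-x.2.1) (-x.2.2))).card : ℝ) ≤
      (quadsG f G).card := Nat.cast_le.2 h2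
  rw [hsplit]
  push_cast
  linarith

lemma prs_sq_leG (f : ZMod p → V) (hf : ∀ a, a ≠ 0 → f a * f (-a) = 1)
    (G : ZMod p → ZMod p → ZMod p → ZMod p → Prop) (U : ℝ)
    (hU : ∀ a b, a ≠ 0 → b ≠ 0 → a + b ≠ 0 → ((cls G a b).card : ℝ) ≤ U) (w : V) :
    ((prs f w).card : ℝ) ^ 2 ≤
      ((p : ℝ) - 1) * (U * (prs f w).card + (quadsG f G).card) := by
  classical
  have h1 : (prs f w).card = ∑ s ∈ nz p, ((prs f w).filter (fun x => x.1 + x.2 = s)).card := by
    refine card_eq_sum_card_fiberwise (fun x hx => ?_)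
    have hx' := mem_coe.1 hx
    simp only [prs, mem_filter] at hx'
    exact mem_coe.2 (mem_nz.2 hx'.2.1)
  have hp : 1 ≤ p := one_le_p p
  have h2 : (prs f w).card ^ 2 ≤ (p - 1) * (pp f w).card := by
    calc (prs f w).card ^ 2
        = (∑ s ∈ nz p, ((prs f w).filter (fun x => x.1 + x.2 = s)).card) ^ 2 := by rw [← h1]
      _ ≤ (nz p).card * ∑ s ∈ nz p, ((prs f w).filter (fun x => x.1 + x.2 = s)).card ^ 2 :=
          sq_sum_le_card_mul_sum_sq
      _ = (p - 1) * (pp f w).card := by rw [card_nz, sum_sq]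
  have h3 : ((prs f w).card : ℝ) ^ 2 ≤ ((p : ℝ) - 1) * (pp f w).card := by
    have := (Nat.cast_le (α := ℝ)).2 h2
    push_cast [Nat.cast_sub hp] at this
    exact this
  have hp' : (0 : ℝ) ≤ (p : ℝ) - 1 := by
    have : (1 : ℝ) ≤ p := by exact_mod_cast hp
    linarith
  exact h3.trans (mul_le_mul_of_nonneg_left (card_pp_leG f hf G U hU w) hp')

/-- the bound -/
noncomputable def bdG (f : ZMod p → V) (G : ZMod p → ZMod p → ZMod p → ZMod p → Prop)
    (U : ℝ) : ℝ :=
  ((p : ℝ) - 1) * (1 + U) + Real.sqrt (((p : ℝ) - 1) * (quadsG f G).card)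

lemma prs0_le_bdG (f : ZMod p → V) (hf : ∀ a, a ≠ 0 → f a * f (-a) = 1)
    (G : ZMod p → ZMod p → ZMod p → ZMod p → Prop) (U : ℝ) (hU0 : 0 ≤ U)
    (hU : ∀ a b, a ≠ 0 → b ≠ 0 → a + b ≠ 0 → ((cls G a b).card : ℝ) ≤ U) (w : V) :
    ((prs0 f w).card : ℝ) ≤ bdG f G U := by
  have h1' := prs_sq_leG f hf G U hU w
  have h2 := prs0_le f w
  have hp : 1 ≤ p := one_le_p p
  have h2' : ((prs0 f w).card : ℝ) ≤ ((p : ℝ) - 1) + (prs f w).card := by
    have := (Nat.cast_le (α := ℝ)).2 h2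
    push_cast [Nat.cast_sub hp] at this
    exact this
  have hp' : (0 : ℝ) ≤ (p : ℝ) - 1 := by
    have : (1 : ℝ) ≤ p := by exact_mod_cast hp
    linarith
  have hq : (0 : ℝ) ≤ (quadsG f G).card := Nat.cast_nonneg _
  set x : ℝ := ((prs f w).card : ℝ)
  set q : ℝ := ((quadsG f G).card : ℝ)
  set n : ℝ := (p : ℝ) - 1
  have hs := Real.sq_sqrt (mul_nonneg hp' hq)
  have hs0 := Real.sqrt_nonneg (n * q)
  have hnU : 0 ≤ n * U := mul_nonneg hp' hU0
  have hx : x ≤ n * U + Real.sqrt (n * q) := by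
    by_contra hcon
    push Not at hcon
    nlinarith
  unfold bdG
  linarith

theorem tup_leG (f : ZMod p → V) (hf : ∀ a, a ≠ 0 → f a * f (-a) = 1)
    (G : ZMod p → ZMod p → ZMod p → ZMod p → Prop) (U : ℝ) (hU0 : 0 ≤ U)
    (hU : ∀ a b, a ≠ 0 → b ≠ 0 → a + b ≠ 0 → ((cls G a b).card : ℝ) ≤ U) (k : ℕ) :
    ∀ w : V, ((tup f (k + 2) w).card : ℝ) ≤ ((p : ℝ) - 1) ^ k * bdG f G U := by
  induction k with
  | zero =>
    intro w
    rw [zero_add, tup_two, pow_zero, one_mul]
    exact prs0_le_bdG f hf G U hU0 hU w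
  | succ k ih =>
    intro w
    have hp : 1 ≤ p := one_le_p p
    rw [show k + 1 + 2 = (k + 2) + 1 from rfl, tup_succ]
    push_cast
    calc ∑ a ∈ nz p, ((tup f (k + 2) ((f a)⁻¹ * w)).card : ℝ)
        ≤ ∑ _a ∈ nz p, ((p : ℝ) - 1) ^ k * bdG f G U := sum_le_sum (fun a _ => ih _)
      _ = ((p : ℝ) - 1) ^ (k + 1) * bdG f G U := by
          rw [sum_const, card_nz, nsmul_eq_mul, Nat.cast_sub hp]
          push_cast; ring

theorem tup_one_sqG (f : ZMod p → V) (hf : ∀ a, a ≠ 0 → f a * f (-a) = 1)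
    (G : ZMod p → ZMod p → ZMod p → ZMod p → Prop) (U : ℝ) (hU0 : 0 ≤ U)
    (hU : ∀ a b, a ≠ 0 → b ≠ 0 → a + b ≠ 0 → ((cls G a b).card : ℝ) ≤ U) (w : V) :
    ((tup f 1 w).card : ℝ) ^ 2 ≤ bdG f G U := by
  classical
  refine le_trans ?_ (prs0_le_bdG f hf G U hU0 hU (w * w))
  have : (tup f 1 w).card ^ 2 ≤ (prs0 f (w * w)).card := by
    rw [sq, ← card_product]
    refine card_le_card_of_injOn (fun x => (x.1 0, x.2 0)) ?_ ?_
    · intro x hx
      have hx' := mem_coe.1 hx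
      simp only [tup, mem_product, mem_filter, Fintype.mem_piFinset, Fin.prod_univ_one] at hx'
      refine mem_coe.2 ?_
      simp only [prs0, mem_filter, mem_product]
      exact ⟨⟨hx'.1.1 0, hx'.2.1 0⟩, by rw [hx'.1.2, hx'.2.2]⟩
    · intro x _ y _ h
      simp only [Prod.mk.injEq] at h
      have e1 : x.1 = y.1 := by
        funext i; rw [Subsingleton.elim i 0]; exact h.1
      have e2 : x.2 = y.2 := by
        funext i; rw [Subsingleton.elim i 0]; exact h.2
      exact Prod.ext e1 e2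
  exact_mod_cast this

end Pool.Agent.Helper29.Rohr
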