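import Pool.Agent.Helper29.Rohr.Comb
import Pool.Agent.Helper29.Rohr.Four
import Pool.Agent.Helper29.Rohr.Defs

/-!
From gamma values to the abstract counting.
-/

namespace Pool.Agent.Helper29.Rohr

open Finset

/-- algebraic units -/
def algU : Subgroup ℝˣ where
  carrier := {u | IsAlgebraic ℚ (u : ℝ)}
  mul_mem' := by
    intro a b ha hb
    simp only [Set.mem_ofPred_eq, Units.val_mul] at *
    exact ha.mul hb
  one_mem' := by
    simp only [Set.mem_ofPred_eq, Units.val_one]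
    exact isAlgebraic_one
  inv_mem' := by
    intro a ha
    simp only [Set.mem_ofPred_eq, Units.val_inv_eq_inv_val] at *
    exact ha.inv

/-- classes of nonzero reals modulo algebraic numbers -/
abbrev Cls := ℝˣ ⧸ algU

lemma mem_algU {u : ℝˣ} : u ∈ algU ↔ IsAlgebraic ℚ (u : ℝ) := Iff.rfl

lemma gam_pos (p : ℕ) [NeZero p] (a : ZMod p) (ha : a ≠ 0) :
    0 < Real.Gamma ((a.val : ℝ) / p) := by
  apply Real.Gamma_pos_of_pos
  have h1 : 0 < a.val := Nat.pos_of_ne_zero (fun h0 => ha ((ZMod.val_eq_zero a).1 h0))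
  have h2 : 0 < p := Nat.pos_of_ne_zero (NeZero.ne p)
  positivity

open Classical in
/-- normalized gamma value as a unit -/
noncomputable def gu (p : ℕ) [NeZero p] (a : ZMod p) : ℝˣ :=
  if h : a ≠ 0 then Units.mk0 (Real.Gamma ((a.val : ℝ) / p) / Real.sqrt Real.pi)
    (div_pos (gam_pos p a h) (Real.sqrt_pos.2 Real.pi_pos)).ne' else 1

lemma gu_val (p : ℕ) [NeZero p] (a : ZMod p) (ha : a ≠ 0) :
    ((gu p a : ℝˣ) : ℝ) = Real.Gamma ((a.val : ℝ) / p) / Real.sqrt Real.pi := by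
  simp [gu, ha]

/-- class of the normalized gamma value -/
noncomputable def cl (p : ℕ) [NeZero p] (a : ZMod p) : Cls := QuotientGroup.mk (gu p a)

lemma cl_neg (p : ℕ) [NeZero p] (a : ZMod p) (ha : a ≠ 0) : cl p a * cl p (-a) = 1 := by
  have hna : -a ≠ 0 := neg_ne_zero.2 ha
  have hp : 0 < p := Nat.pos_of_ne_zero (NeZero.ne p)
  have hp' : (p : ℝ) ≠ 0 := by positivity
  unfold cl
  rw [← QuotientGroup.mk_mul, QuotientGroup.eq_one_iff, mem_algU, Units.val_mul, gu_val p a ha,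
    gu_val p (-a) hna]
  have h1 : ((-a).val : ℝ) / p = 1 - (a.val : ℝ) / p := by
    have : NeZero a := ⟨ha⟩
    rw [ZMod.val_neg_of_ne_zero, Nat.cast_sub (ZMod.val_lt a).le]
    field_simp
  rw [h1]
  have h2 : Real.Gamma ((a.val : ℝ) / p) / Real.sqrt Real.pi *
      (Real.Gamma (1 - (a.val : ℝ) / p) / Real.sqrt Real.pi) =
      (Real.sin (((a.val : ℚ) / p : ℚ) * Real.pi))⁻¹ := by
    rw [div_mul_div_comm, Real.Gamma_mul_Gamma_one_sub, Real.mul_self_sqrt Real.pi_pos.le]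
    push_cast
    rw [mul_comm Real.pi, div_div, mul_comm, ← div_div, div_self Real.pi_ne_zero, one_div]
  rw [h2]
  refine IsAlgebraic.inv ?_
  have := Real.isAlgebraic_sin_rat_mul_pi ((a.val : ℚ) / p)
  exact (IsFractionRing.isAlgebraic_iff ℤ ℚ ℝ).1 this

lemma prod_gu (p r : ℕ) [NeZero p] (a : Fin r → ZMod p) (ha : ∀ i, a i ≠ 0) :
    ((∏ i, gu p (a i) : ℝˣ) : ℝ) =
      (∏ i, Real.Gamma (((a i).val : ℝ) / p)) / (Real.sqrt Real.pi) ^ r := by
  rw [Units.coe_prod, Finset.prod_congr rfl (fun i _ => gu_val p (a i) (ha i)),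
    Finset.prod_div_distrib]
  simp

/-- `GammaMult` in terms of classes -/
lemma gammaMult_iff (p r : ℕ) [NeZero p] (a : Fin r → ZMod p) (ha : ∀ i, a i ≠ 0) (z : ℝ)
    (hz : z ≠ 0) (w : ℝˣ) (hw : (w : ℝ) = z / (Real.sqrt Real.pi) ^ r) :
    GammaMult p r (fun i => (a i).val) z ↔ ∏ i, cl p (a i) = QuotientGroup.mk w := by
  have hs : (Real.sqrt Real.pi) ^ r ≠ 0 := pow_ne_zero _ (Real.sqrt_pos.2 Real.pi_pos).ne'
  have e1 : ∏ i, cl p (a i) = (QuotientGroup.mk (∏ i, gu p (a i)) : Cls) := by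
    unfold cl
    rw [QuotientGroup.mk_prod]
  have hP : ∏ i, Real.Gamma (((a i).val : ℝ) / p) ≠ 0 :=
    Finset.prod_ne_zero_iff.2 (fun i _ => (gam_pos p (a i) (ha i)).ne')
  rw [e1, eq_comm, QuotientGroup.eq, mem_algU, Units.val_mul, Units.val_inv_eq_inv_val, hw,
    prod_gu p r a ha]
  have e2 : (z / (Real.sqrt Real.pi) ^ r)⁻¹ *
      ((∏ i, Real.Gamma (((a i).val : ℝ) / p)) / (Real.sqrt Real.pi) ^ r) =
      (∏ i, Real.Gamma (((a i).val : ℝ) / p)) / z := by
    field_simp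
  rw [e2]
  constructor
  · rintro ⟨α, hα, h⟩
    rw [h, mul_div_cancel_right₀ _ hz]
    exact hα
  · intro h
    exact ⟨_, h, by field_simp⟩

lemma sqrt_pi_pow_four : (Real.sqrt Real.pi) ^ 4 = Real.pi ^ ((4 : ℝ) / 2) := by
  have h1 : (Real.sqrt Real.pi) ^ 4 = ((Real.sqrt Real.pi) ^ 2) ^ 2 := by ring
  rw [h1, Real.sq_sqrt Real.pi_pos.le]
  norm_num

/-- the fractional-part identity for a quadruple gives the residue identity -/
lemma fracId_val (p : ℕ) [hp : Fact p.Prime] (a : Fin 4 → ZMod p)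
    (h : FracId p 4 (fun i => (a i).val)) (t : ZMod p) (ht : t ≠ 0) :
    (t * a 0).val + (t * a 1).val + (t * a 2).val + (t * a 3).val = 2 * p := by
  have hpp := hp.out
  have : NeZero p := ⟨hpp.ne_zero⟩
  have hp0 : (p : ℚ) ≠ 0 := by exact_mod_cast hpp.ne_zero
  have htv : 0 < t.val := Nat.pos_of_ne_zero (fun h0 => ht ((ZMod.val_eq_zero t).1 h0))
  have htl : t.val < p := ZMod.val_lt t
  have hcop : Nat.Coprime t.val p := by
    rw [Nat.coprime_comm, Nat.Prime.coprime_iff_not_dvd hpp]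
    intro hd
    exact absurd (Nat.le_of_dvd htv hd) (by omega)
  have e := h t.val htv htl hcop
  have ev : ∀ i, Int.fract ((t.val : ℚ) * (((a i).val : ℚ) / p)) = ((t * a i).val : ℚ) / p := by
    intro i
    rw [ZMod.val_mul, ← mul_div_assoc]
    have := Int.fract_div_natCast_eq_div_natCast_mod (k := ℚ) (m := t.val * (a i).val) (n := p)
    push_cast at this
    exact this
  simp only [ev, Fin.sum_univ_four] at e
  have e2 : ((t * a 0).val : ℚ) + (t * a 1).val + (t * a 2).val + (t * a 3).val = 2 * p := by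
    have e3 : ((t * a 0).val : ℚ) + (t * a 1).val + (t * a 2).val + (t * a 3).val =
      (((t * a 0).val : ℚ) / p + ((t * a 1).val : ℚ) / p + ((t * a 2).val : ℚ) / p +
        ((t * a 3).val : ℚ) / p) * p := by
      field_simp
    rw [e3, e]
    norm_num
  exact_mod_cast e2

open Classical in
lemma quads_le (p : ℕ) [hp : Fact p.Prime] [NeZero p] : (quads (cl p)).card ≤ badQuads p := by
  have hpp := hp.out
  unfold badQuads
  refine card_le_card_of_injOn (fun x => ![x.1.val, x.2.1.val, x.2.2.1.val, x.2.2.2.val]) ?_ ?_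
  · intro x hx
    have hx' := mem_coe.1 hx
    simp only [quads, mem_filter, mem_product, mem_nz] at hx'
    obtain ⟨⟨h1, h2, h3, h4⟩, h5, h6, h7, h8, h9⟩ := hx'
    have hpos : ∀ u : ZMod p, u ≠ 0 → 0 < u.val := fun u hu =>
      Nat.pos_of_ne_zero (fun h0 => hu ((ZMod.val_eq_zero u).1 h0))
    set a : Fin 4 → ZMod p := ![x.1, x.2.1, x.2.2.1, x.2.2.2] with ha
    have hfun : (![x.1.val, x.2.1.val, x.2.2.1.val, x.2.2.2.val] : Fin 4 → ℕ) =
        fun i => (a i).val := by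
      funext i; fin_cases i <;> simp [ha]
    have hane : ∀ i, a i ≠ 0 := by
      intro i; fin_cases i <;> simp [ha, h1, h2, h3, h4]
    refine mem_coe.2 ?_
    simp only [mem_filter]
    rw [hfun]
    refine ⟨?_, ?_, ?_, ?_⟩
    · simp only [box, Fintype.mem_piFinset, mem_Ioo]
      exact fun i => ⟨hpos _ (hane i), ZMod.val_lt _⟩
    · rw [← ZMod.natCast_eq_zero_iff]
      push_cast
      simp only [ZMod.natCast_zmod_val, Fin.sum_univ_four]
      simpa [ha] using h5
    · have hz : Real.pi ^ ((4 : ℝ) / 2) ≠ 0 := (Real.rpow_pos_of_pos Real.pi_pos _).ne'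
      rw [gammaMult_iff p 4 a hane _ hz 1 (by
        rw [sqrt_pi_pow_four, div_self hz, Units.val_one])]
      rw [QuotientGroup.mk_one, Fin.prod_univ_four]
      simpa [ha] using h6
    · intro hF
      have h10 := four_term p (a 0) (a 1) (a 2) (a 3) (hane 0) (hane 1) (hane 2) (hane 3)
        (fun t ht => fracId_val p a hF t ht)
      have e0 : a 0 = x.1 := by simp [ha]
      have e1 : a 1 = x.2.1 := by simp [ha]
      have e2 : a 2 = x.2.2.1 := by simp [ha]
      have e3 : a 3 = x.2.2.2 := by simp [ha]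
      rw [e0, e1, e2, e3] at h10
      tauto
  · intro x _ y _ hxy
    have e0 := congrFun hxy 0
    have e1 := congrFun hxy 1
    have e2 := congrFun hxy 2
    have e3 := congrFun hxy 3
    simp at e0 e1 e2 e3
    have f0 := ZMod.val_injective p e0
    have f1 := ZMod.val_injective p e1
    have f2 := ZMod.val_injective p e2
    have f3 := ZMod.val_injective p e3
    ext
    · rw [f0]
    · rw [f1]
    · rw [f2]
    · rw [f3]

open Classical in
lemma count_le (p r : ℕ) [hp : Fact p.Prime] [NeZero p] (z : ℝ) (w : ℝˣ)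
    (hz : z ≠ 0) (hw : (w : ℝ) = z / (Real.sqrt Real.pi) ^ r) :
    count p r z ≤ (tup (cl p) r (QuotientGroup.mk w)).card := by
  unfold count
  refine card_le_card_of_injOn (fun j i => ((j i : ℕ) : ZMod p)) ?_ ?_
  · intro j hj
    have hj' := mem_coe.1 hj
    simp only [mem_filter, box, Fintype.mem_piFinset, mem_Ioo] at hj'
    have hv : ∀ i, ((j i : ZMod p)).val = j i := fun i => by
      rw [ZMod.val_natCast, Nat.mod_eq_of_lt (hj'.1 i).2]
    have hne : ∀ i, ((j i : ZMod p)) ≠ 0 := by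
      intro i h0
      have := hv i
      rw [h0, ZMod.val_zero] at this
      have := (hj'.1 i).1
      omega
    refine mem_coe.2 ?_
    simp only [tup, mem_filter, Fintype.mem_piFinset, mem_nz]
    refine ⟨hne, ?_⟩
    rw [← gammaMult_iff p r (fun i => ((j i : ℕ) : ZMod p)) hne z hz w hw]
    simp only [hv]
    exact hj'.2
  · intro j hj k hk h
    have hj' := mem_coe.1 hj
    have hk' := mem_coe.1 hk
    simp only [mem_filter, box, Fintype.mem_piFinset, mem_Ioo] at hj' hk'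
    funext i
    have h1 := congrFun h i
    simp only at h1
    have h2 := congrArg ZMod.val h1
    rw [ZMod.val_natCast, ZMod.val_natCast, Nat.mod_eq_of_lt (hj'.1 i).2,
      Nat.mod_eq_of_lt (hk'.1 i).2] at h2
    exact h2

theorem main (p : ℕ) (hp : p.Prime) (z : ℝ) (hz : z ≠ 0) :
    (∀ k : ℕ, (count p (k + 2) z : ℝ) ≤
      ((p : ℝ) - 1) ^ k * (3 * ((p : ℝ) - 1) + Real.sqrt (((p : ℝ) - 1) * badQuads p))) ∧
    (count p 1 z : ℝ) ^ 2 ≤ 3 * ((p : ℝ) - 1) + Real.sqrt (((p : ℝ) - 1) * badQuads p) := by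
  classical
  have : Fact p.Prime := ⟨hp⟩
  have : NeZero p := ⟨hp.ne_zero⟩
  have hp1 : (0 : ℝ) ≤ (p : ℝ) - 1 := by
    have : (1 : ℝ) ≤ p := by exact_mod_cast hp.one_lt.le
    linarith
  have hbd : bd (cl p) ≤ 3 * ((p : ℝ) - 1) + Real.sqrt (((p : ℝ) - 1) * badQuads p) := by
    unfold bd
    have h1 : ((quads (cl p)).card : ℝ) ≤ badQuads p := by exact_mod_cast quads_le p
    have h2 := Real.sqrt_le_sqrt (mul_le_mul_of_nonneg_left h1 hp1)
    linarith
  have hs : ∀ r : ℕ, (Real.sqrt Real.pi) ^ r ≠ 0 := fun r =>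
    pow_ne_zero _ (Real.sqrt_pos.2 Real.pi_pos).ne'
  constructor
  · intro k
    have h1 := count_le p (k + 2) z (Units.mk0 (z / (Real.sqrt Real.pi) ^ (k + 2))
      (div_ne_zero hz (hs _))) hz rfl
    calc (count p (k + 2) z : ℝ) ≤ _ := Nat.cast_le.2 h1
      _ ≤ _ := tup_le (cl p) (cl_neg p) k _
      _ ≤ _ := mul_le_mul_of_nonneg_left hbd (pow_nonneg hp1 k)
  · have h1 := count_le p 1 z (Units.mk0 (z / (Real.sqrt Real.pi) ^ 1)
      (div_ne_zero hz (hs _))) hz rfl
    calc (count p 1 z : ℝ) ^ 2 ≤ _ := pow_le_pow_left₀ (Nat.cast_nonneg _) (Nat.cast_le.2 h1) 2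
      _ ≤ _ := tup_one_sq (cl p) (cl_neg p) _
      _ ≤ _ := hbd

end Pool.Agent.Helper29.Rohr
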