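import Pool.Agent.Helper29.Rohr.Class
import Pool.Agent.Helper29.Rohr.GenComb
import Pool.Agent.Helper29.Rohr.Link

/-!
The density reduction for all denominators.
-/

namespace Pool.Agent.Helper29.Rohr

open Finset

variable {D : ℕ} [NeZero D]

/-- admissible quadruples -/
def Good (a b c d : ZMod D) : Prop := ∀ t : (ZMod D)ˣ,
  ((t : ZMod D) * a).val + ((t : ZMod D) * b).val + ((t : ZMod D) * c).val +
    ((t : ZMod D) * d).val = 2 * D

omit [NeZero D] in
lemma unit_mul_ne (t : (ZMod D)ˣ) {c : ZMod D} (hc : c ≠ 0) : (t : ZMod D) * c ≠ 0 := by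
  intro h0
  exact hc ((Units.mul_right_eq_zero t).1 h0)

lemma val_unit_neg (t : (ZMod D)ˣ) {c : ZMod D} (hc : c ≠ 0) :
    ((t : ZMod D) * (-c)).val + ((t : ZMod D) * c).val = D := by
  have h1 : (t : ZMod D) * (-c) = -((t : ZMod D) * c) := by ring
  have : NeZero ((t : ZMod D) * c) := ⟨unit_mul_ne t hc⟩
  rw [h1, ZMod.val_neg_of_ne_zero]
  have := (ZMod.val_lt ((t : ZMod D) * c)).le
  omega

lemma cls_le (a b : ZMod D) (hs : a + b ≠ 0) :
    ((cls (Good (D := D)) a b).card : ℝ) ≤ UU D := by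
  classical
  refine le_trans (Nat.cast_le.2 ?_) (card_kls_le a b hs)
  refine card_le_card_of_injOn (fun y => y.1) ?_ ?_
  · intro y hy
    have hy' := mem_coe.1 hy
    simp only [cls, mem_filter, mem_product, mem_nz] at hy'
    obtain ⟨⟨h1, h2⟩, h3, h4⟩ := hy'
    refine mem_coe.2 ?_
    simp only [kls, mem_filter, mem_univ, true_and]
    intro t
    have h5 := h4 t
    have h6 := val_unit_neg t h1
    have h7 := val_unit_neg t h2
    have h8 : a + b - y.1 = y.2 := by rw [h3]; ring
    rw [h8]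
    omega
  · intro x hx y hy hxy
    have hx' := mem_coe.1 hx
    have hy' := mem_coe.1 hy
    simp only [cls, mem_filter] at hx' hy'
    have h : x.1 = y.1 := hxy
    refine Prod.ext h ?_
    have e := hx'.2.1.symm.trans hy'.2.1
    rw [h] at e
    exact add_left_cancel e

lemma fracId_good (hD : 1 < D) (a : Fin 4 → ZMod D)
    (h : FracId D 4 (fun i => (a i).val)) : Good (a 0) (a 1) (a 2) (a 3) := by
  intro t
  have hD0 : (D : ℚ) ≠ 0 := by exact_mod_cast (NeZero.ne D)
  have : Fact (1 < D) := ⟨hD⟩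
  have htv : 0 < (t : ZMod D).val := Nat.pos_of_ne_zero (fun h0 => by
    have := (ZMod.val_eq_zero (t : ZMod D)).1 h0
    exact t.ne_zero this)
  have htl : (t : ZMod D).val < D := ZMod.val_lt _
  have hcop : Nat.Coprime (t : ZMod D).val D := ZMod.val_coe_unit_coprime t
  have e := h (t : ZMod D).val htv htl hcop
  have ev : ∀ i, Int.fract (((t : ZMod D).val : ℚ) * (((a i).val : ℚ) / D)) =
      (((t : ZMod D) * a i).val : ℚ) / D := by
    intro i
    rw [ZMod.val_mul, ← mul_div_assoc]
    have := Int.fract_div_natCast_eq_div_natCast_mod (k := ℚ)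
      (m := (t : ZMod D).val * (a i).val) (n := D)
    push_cast at this
    exact this
  simp only [ev, Fin.sum_univ_four] at e
  have e2 : (((t : ZMod D) * a 0).val : ℚ) + ((t : ZMod D) * a 1).val +
      ((t : ZMod D) * a 2).val + ((t : ZMod D) * a 3).val = 2 * D := by
    have e3 : (((t : ZMod D) * a 0).val : ℚ) + ((t : ZMod D) * a 1).val +
        ((t : ZMod D) * a 2).val + ((t : ZMod D) * a 3).val =
      ((((t : ZMod D) * a 0).val : ℚ) / D + (((t : ZMod D) * a 1).val : ℚ) / D +
        (((t : ZMod D) * a 2).val : ℚ) / D + (((t : ZMod D) * a 3).val : ℚ) / D) * D := by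
      field_simp
    rw [e3, e]
    norm_num
  exact_mod_cast e2

open Classical in
lemma quadsG_le (hD : 1 < D) : (quadsG (cl D) Good).card ≤ badQuads D := by
  unfold badQuads
  refine card_le_card_of_injOn (fun x => ![x.1.val, x.2.1.val, x.2.2.1.val, x.2.2.2.val]) ?_ ?_
  · intro x hx
    have hx' := mem_coe.1 hx
    simp only [quadsG, mem_filter, mem_product, mem_nz] at hx'
    obtain ⟨⟨h1, h2, h3, h4⟩, h5, h6, h7⟩ := hx'
    have hpos : ∀ u : ZMod D, u ≠ 0 → 0 < u.val := fun u hu =>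
      Nat.pos_of_ne_zero (fun h0 => hu ((ZMod.val_eq_zero u).1 h0))
    set a : Fin 4 → ZMod D := ![x.1, x.2.1, x.2.2.1, x.2.2.2] with ha
    have hfun : (![x.1.val, x.2.1.val, x.2.2.1.val, x.2.2.2.val] : Fin 4 → ℕ) =
        fun i => (a i).val := by
      funext i; fin_cases i <;> simp [ha]
    have hane : ∀ i, a i ≠ 0 := by
      intro i; fin_cases i <;> simp [ha, h1, h2, h3, h4]
    refine mem_coe.2 ?_
    simp only [mem_filter]
    rw [hfun]
    refine ⟨?_, ?_, ?_, ?_⟩
    · simp only [box, Fintype.mem_piFinset, mem_Ioo]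
      exact fun i => ⟨hpos _ (hane i), ZMod.val_lt _⟩
    · rw [← ZMod.natCast_eq_zero_iff]
      push_cast
      simp only [ZMod.natCast_zmod_val, Fin.sum_univ_four]
      simpa [ha] using h5
    · have hz : Real.pi ^ ((4 : ℝ) / 2) ≠ 0 := (Real.rpow_pos_of_pos Real.pi_pos _).ne'
      rw [gammaMult_iff D 4 a hane _ hz 1 (by
        rw [sqrt_pi_pow_four, div_self hz, Units.val_one])]
      rw [QuotientGroup.mk_one, Fin.prod_univ_four]
      simpa [ha] using h6
    · intro hF
      exact h7 (fracId_good hD a hF)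
  · intro x _ y _ hxy
    have e0 := congrFun hxy 0
    have e1 := congrFun hxy 1
    have e2 := congrFun hxy 2
    have e3 := congrFun hxy 3
    simp at e0 e1 e2 e3
    have f0 := ZMod.val_injective D e0
    have f1 := ZMod.val_injective D e1
    have f2 := ZMod.val_injective D e2
    have f3 := ZMod.val_injective D e3
    ext
    · rw [f0]
    · rw [f1]
    · rw [f2]
    · rw [f3]

open Classical in
lemma count_leG (r : ℕ) (z : ℝ) (w : ℝˣ)
    (hz : z ≠ 0) (hw : (w : ℝ) = z / (Real.sqrt Real.pi) ^ r) :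
    count D r z ≤ (tup (cl D) r (QuotientGroup.mk w)).card := by
  unfold count
  refine card_le_card_of_injOn (fun j i => ((j i : ℕ) : ZMod D)) ?_ ?_
  · intro j hj
    have hj' := mem_coe.1 hj
    simp only [mem_filter, box, Fintype.mem_piFinset, mem_Ioo] at hj'
    have hv : ∀ i, ((j i : ZMod D)).val = j i := fun i => by
      rw [ZMod.val_natCast, Nat.mod_eq_of_lt (hj'.1 i).2]
    have hne : ∀ i, ((j i : ZMod D)) ≠ 0 := by
      intro i h0
      have := hv i
      rw [h0, ZMod.val_zero] at this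
      have := (hj'.1 i).1
      omega
    refine mem_coe.2 ?_
    simp only [tup, mem_filter, Fintype.mem_piFinset, mem_nz]
    refine ⟨hne, ?_⟩
    rw [← gammaMult_iff D r (fun i => ((j i : ℕ) : ZMod D)) hne z hz w hw]
    simp only [hv]
    exact hj'.2
  · intro j hj k hk h
    have hj' := mem_coe.1 hj
    have hk' := mem_coe.1 hk
    simp only [mem_filter, box, Fintype.mem_piFinset, mem_Ioo] at hj' hk'
    funext i
    have h1 := congrFun h i
    simp only at h1
    have h2 := congrArg ZMod.val h1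
    rw [ZMod.val_natCast, ZMod.val_natCast, Nat.mod_eq_of_lt (hj'.1 i).2,
      Nat.mod_eq_of_lt (hk'.1 i).2] at h2
    exact h2

omit [NeZero D] in
lemma UU_nonneg : 0 ≤ UU D := by
  unfold UU
  positivity

/-- for prime `D` every class of pairs has at most two elements -/
lemma cls_le_prime (hp : D.Prime) (a b : ZMod D) (ha : a ≠ 0) (hb : b ≠ 0) (hs : a + b ≠ 0) :
    ((cls (Good (D := D)) a b).card : ℝ) ≤ 2 := by
  classical
  have : Fact D.Prime := ⟨hp⟩
  have hsub : cls (Good (D := D)) a b ⊆ {(a, b), (b, a)} := by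
    intro y hy
    simp only [cls, mem_filter, mem_product, mem_nz] at hy
    obtain ⟨⟨h1, h2⟩, h3, h4⟩ := hy
    have h5 := four_term D a b (-y.1) (-y.2) ha hb (neg_ne_zero.2 h1) (neg_ne_zero.2 h2)
      (fun t ht => by
        have := h4 (Units.mk0 t ht)
        simpa using this)
    rw [mem_insert, mem_singleton]
    rcases h5 with h | h | h
    · exact absurd h hs
    · left
      have e : a = y.1 := add_neg_eq_zero.1 h
      refine Prod.ext e.symm ?_
      rw [e] at h3
      exact (add_left_cancel h3).symm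
    · right
      have e : a = y.2 := add_neg_eq_zero.1 h
      refine Prod.ext ?_ e.symm
      rw [e, add_comm] at h3
      exact (add_right_cancel h3).symm
  have h6 := card_le_card hsub
  have h7 : ({(a, b), (b, a)} : Finset (ZMod D × ZMod D)).card ≤ 2 := card_le_two
  exact_mod_cast h6.trans h7

lemma cls_le_classBound (a b : ZMod D) (ha : a ≠ 0) (hb : b ≠ 0) (hs : a + b ≠ 0) :
    ((cls (Good (D := D)) a b).card : ℝ) ≤ classBound D := by
  unfold classBound
  split_ifs with h
  · exact cls_le_prime h a b ha hb hs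
  · exact cls_le a b hs

omit [NeZero D] in
lemma classBound_nonneg : 0 ≤ classBound D := by
  unfold classBound
  split_ifs
  · norm_num
  · positivity

theorem mainG (D : ℕ) (hD : 1 < D) (z : ℝ) (hz : z ≠ 0) :
    (∀ k : ℕ, (count D (k + 2) z : ℝ) ≤
      ((D : ℝ) - 1) ^ k * (((D : ℝ) - 1) * (1 + classBound D) +
        Real.sqrt (((D : ℝ) - 1) * badQuads D))) ∧
    (count D 1 z : ℝ) ^ 2 ≤ ((D : ℝ) - 1) * (1 + classBound D) +
        Real.sqrt (((D : ℝ) - 1) * badQuads D) := by
  classical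
  have : NeZero D := ⟨by omega⟩
  have hp1 : (0 : ℝ) ≤ (D : ℝ) - 1 := by
    have : (1 : ℝ) ≤ D := by exact_mod_cast hD.le
    linarith
  have hU : ∀ a b : ZMod D, a ≠ 0 → b ≠ 0 → a + b ≠ 0 →
      ((cls (Good (D := D)) a b).card : ℝ) ≤ classBound D :=
    fun a b ha hb h => cls_le_classBound a b ha hb h
  have hbd : bdG (cl D) Good (classBound D) ≤ ((D : ℝ) - 1) * (1 + classBound D) +
      Real.sqrt (((D : ℝ) - 1) * badQuads D) := by
    unfold bdG
    have h1 : ((quadsG (cl D) Good).card : ℝ) ≤ badQuads D := by exact_mod_cast quadsG_le hD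
    have h2 := Real.sqrt_le_sqrt (mul_le_mul_of_nonneg_left h1 hp1)
    linarith
  have hs : ∀ r : ℕ, (Real.sqrt Real.pi) ^ r ≠ 0 := fun r =>
    pow_ne_zero _ (Real.sqrt_pos.2 Real.pi_pos).ne'
  constructor
  · intro k
    have h1 := count_leG (D := D) (k + 2) z (Units.mk0 (z / (Real.sqrt Real.pi) ^ (k + 2))
      (div_ne_zero hz (hs _))) hz rfl
    calc (count D (k + 2) z : ℝ) ≤ _ := Nat.cast_le.2 h1
      _ ≤ _ := tup_leG (cl D) (cl_neg D) Good (classBound D) classBound_nonneg hU k _
      _ ≤ _ := mul_le_mul_of_nonneg_left hbd (pow_nonneg hp1 k)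
  · have h1 := count_leG (D := D) 1 z (Units.mk0 (z / (Real.sqrt Real.pi) ^ 1)
      (div_ne_zero hz (hs _))) hz rfl
    calc (count D 1 z : ℝ) ^ 2 ≤ _ := pow_le_pow_left₀ (Nat.cast_nonneg _) (Nat.cast_le.2 h1) 2
      _ ≤ _ := tup_one_sqG (cl D) (cl_neg D) Good (classBound D) classBound_nonneg hU _
      _ ≤ _ := hbd

theorem mainDens (D : ℕ) (hD : 2 ≤ D) (z : ℝ) (hz : z ≠ 0) :
    (∀ r : ℕ, 2 ≤ r → (count D r z : ℝ) / ((D : ℝ) - 1) ^ r ≤
      (1 + classBound D) / ((D : ℝ) - 1) + Real.sqrt (badQuads D / ((D : ℝ) - 1) ^ 3)) ∧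
    ((count D 1 z : ℝ) / ((D : ℝ) - 1)) ^ 2 ≤
      (1 + classBound D) / ((D : ℝ) - 1) + Real.sqrt (badQuads D / ((D : ℝ) - 1) ^ 3) := by
  obtain ⟨h1, h2⟩ := mainG D (by omega) z hz
  have hn : (0 : ℝ) < (D : ℝ) - 1 := by
    have : (2 : ℝ) ≤ D := by exact_mod_cast hD
    linarith
  set n : ℝ := (D : ℝ) - 1 with hnd
  have hsq : Real.sqrt (n * badQuads D) = n ^ 2 * Real.sqrt (badQuads D / n ^ 3) := by
    have e : n * (badQuads D : ℝ) = (n ^ 2) ^ 2 * (badQuads D / n ^ 3) := by
      field_simp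
    rw [e, Real.sqrt_mul (by positivity), Real.sqrt_sq (by positivity)]
  have hB : n * (1 + classBound D) + Real.sqrt (n * badQuads D) =
      n ^ 2 * ((1 + classBound D) / n + Real.sqrt (badQuads D / n ^ 3)) := by
    rw [hsq]
    field_simp
  rw [hB] at h2
  constructor
  · intro r hr
    obtain ⟨k, rfl⟩ := Nat.exists_eq_add_of_le hr
    rw [div_le_iff₀ (by positivity)]
    have h3 := h1 k
    rw [hB, show k + 2 = 2 + k by omega] at h3
    refine h3.trans (le_of_eq ?_)
    rw [pow_add]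
    ring
  · rw [div_pow, div_le_iff₀ (by positivity)]
    refine h2.trans (le_of_eq ?_)
    ring

end Pool.Agent.Helper29.Rohr
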