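import Pool.Agent.Helper29.Rohr.Fourier

/-!
Second moment bound for sums of the sawtooth over dilates of a set.
-/

namespace Pool.Agent.Helper29.Rohr

open Finset

variable {D : ℕ} [NeZero D]

/-- exponential sum over a set -/
noncomputable def eA (A : Finset (ZMod D)) (u : ZMod D) : ℂ := ∑ a ∈ A, ee (u * a)

lemma card_mul_eq_zero_le (j : ZMod D) :
    ((univ : Finset (ZMod D)).filter (fun y => j * y = 0)).card ≤ Nat.gcd j.val D := by
  classical
  have hg : 0 < Nat.gcd j.val D := Nat.gcd_pos_of_pos_right _ (Nat.pos_of_ne_zero (NeZero.ne D))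
  refine le_trans (card_le_card ?_) (IsAddCyclic.card_nsmul_eq_zero_le (α := ZMod D) hg)
  intro y hy
  simp only [mem_filter, mem_univ, true_and] at hy ⊢
  rw [← addOrderOf_dvd_iff_nsmul_eq_zero]
  refine Nat.dvd_gcd ?_ ?_
  · rw [addOrderOf_dvd_iff_nsmul_eq_zero, nsmul_eq_mul, ZMod.natCast_zmod_val]
    exact hy
  · rw [addOrderOf_dvd_iff_nsmul_eq_zero, nsmul_eq_mul, CharP.cast_eq_zero, zero_mul]

lemma norm_sq_eA (A : Finset (ZMod D)) (u : ZMod D) :
    ((‖eA A u‖ ^ 2 : ℝ) : ℂ) = ∑ a ∈ A, ∑ b ∈ A, ee (u * (a - b)) := by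
  have h1 : ((‖eA A u‖ ^ 2 : ℝ) : ℂ) = eA A u * (starRingEnd ℂ) (eA A u) := by
    rw [Complex.mul_conj']
    push_cast
    rfl
  rw [h1]
  unfold eA
  rw [map_sum, sum_mul_sum]
  refine sum_congr rfl (fun a _ => sum_congr rfl (fun b _ => ?_))
  have h2 : (starRingEnd ℂ) (ee (u * b)) = ee (-(u * b)) := by
    unfold ee
    rw [AddChar.map_neg_eq_conj]
  rw [h2, ← ee_add]
  congr 1
  ring

lemma sum_norm_sq_eA (A : Finset (ZMod D)) (j : ZMod D) :
    ∑ t : ZMod D, ‖eA A (j * t)‖ ^ 2 ≤ D * (A.card * (Nat.gcd j.val D : ℝ)) := by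
  classical
  have h1 : ((∑ t : ZMod D, ‖eA A (j * t)‖ ^ 2 : ℝ) : ℂ) =
      ((D * ∑ a ∈ A, ((A.filter (fun b => j * (a - b) = 0)).card : ℝ) : ℝ) : ℂ) := by
    push_cast
    have h2 : ∀ t : ZMod D, ((‖eA A (j * t)‖ : ℂ)) ^ 2 =
        ∑ a ∈ A, ∑ b ∈ A, ee (t * (j * (a - b))) := by
      intro t
      have := norm_sq_eA A (j * t)
      push_cast at this
      rw [this]
      refine sum_congr rfl (fun a _ => sum_congr rfl (fun b _ => ?_))
      congr 1
      ring
    rw [sum_congr rfl (fun t _ => h2 t), sum_comm, mul_sum]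
    refine sum_congr rfl (fun a _ => ?_)
    rw [sum_comm, card_filter]
    push_cast
    rw [mul_sum]
    refine sum_congr rfl (fun b _ => ?_)
    rw [sum_ee]
    split_ifs <;> simp
  have h3 := Complex.ofReal_injective h1
  rw [h3]
  refine mul_le_mul_of_nonneg_left ?_ D_pos.le
  calc ∑ a ∈ A, ((A.filter (fun b => j * (a - b) = 0)).card : ℝ)
      ≤ ∑ _a ∈ A, (Nat.gcd j.val D : ℝ) := by
        refine sum_le_sum (fun a _ => ?_)
        refine Nat.cast_le.2 (le_trans ?_ (card_mul_eq_zero_le j))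
        refine card_le_card_of_injOn (fun b => a - b) ?_ ?_
        · intro b hb
          have hb' := mem_coe.1 hb
          simp only [mem_filter] at hb'
          refine mem_coe.2 ?_
          simp only [mem_filter, mem_univ, true_and]
          exact hb'.2
        · intro b _ c _ h
          exact sub_right_injective h
    _ = A.card * (Nat.gcd j.val D : ℝ) := by rw [sum_const, nsmul_eq_mul]

/-- total weight -/
noncomputable def W1 (D : ℕ) [NeZero D] : ℝ := ∑ j : ZMod D, ‖cf j‖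

/-- weight with gcd -/
noncomputable def W2 (D : ℕ) [NeZero D] : ℝ := ∑ j : ZMod D, ‖cf j‖ * (Nat.gcd j.val D : ℝ)

lemma second_moment (A : Finset (ZMod D)) :
    ∑ t : ZMod D, (∑ a ∈ A, saw (t * a)) ^ 2 ≤ D * A.card * (W1 D * W2 D) := by
  have hpt : ∀ t : ZMod D, (∑ a ∈ A, saw (t * a)) ^ 2 ≤
      W1 D * ∑ j : ZMod D, ‖cf j‖ * ‖eA A (j * t)‖ ^ 2 := by
    intro t
    have h1 : ((∑ a ∈ A, saw (t * a) : ℝ) : ℂ) = ∑ j : ZMod D, cf j * eA A (j * t) := by
      push_cast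
      unfold eA
      rw [sum_congr rfl (fun a _ => inversion (t * a)), sum_comm]
      refine sum_congr rfl (fun j _ => ?_)
      rw [mul_sum]
      refine sum_congr rfl (fun a _ => ?_)
      rw [mul_assoc]
    have h2 : |∑ a ∈ A, saw (t * a)| ≤ ∑ j : ZMod D, ‖cf j‖ * ‖eA A (j * t)‖ := by
      have : |∑ a ∈ A, saw (t * a)| = ‖((∑ a ∈ A, saw (t * a) : ℝ) : ℂ)‖ := by
        rw [Complex.norm_real, Real.norm_eq_abs]
      rw [this, h1]
      refine (norm_sum_le _ _).trans (le_of_eq (sum_congr rfl (fun j _ => norm_mul _ _)))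
    have h3 : (∑ a ∈ A, saw (t * a)) ^ 2 ≤ (∑ j : ZMod D, ‖cf j‖ * ‖eA A (j * t)‖) ^ 2 := by
      rw [← sq_abs]
      exact pow_le_pow_left₀ (abs_nonneg _) h2 2
    refine h3.trans ?_
    unfold W1
    refine sum_sq_le_sum_mul_sum_of_sq_le_mul univ (fun j _ => norm_nonneg _)
      (fun j _ => mul_nonneg (norm_nonneg _) (sq_nonneg _)) (fun j _ => le_of_eq ?_)
    ring
  have hW1 : 0 ≤ W1 D := sum_nonneg (fun j _ => norm_nonneg _)
  calc ∑ t : ZMod D, (∑ a ∈ A, saw (t * a)) ^ 2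
      ≤ ∑ t : ZMod D, W1 D * ∑ j : ZMod D, ‖cf j‖ * ‖eA A (j * t)‖ ^ 2 :=
        sum_le_sum (fun t _ => hpt t)
    _ = W1 D * ∑ j : ZMod D, ‖cf j‖ * ∑ t : ZMod D, ‖eA A (j * t)‖ ^ 2 := by
        rw [← mul_sum, sum_comm]
        congr 1
        exact sum_congr rfl (fun j _ => by rw [mul_sum])
    _ ≤ W1 D * ∑ j : ZMod D, ‖cf j‖ * (D * (A.card * (Nat.gcd j.val D : ℝ))) := by
        refine mul_le_mul_of_nonneg_left (sum_le_sum (fun j _ => ?_)) hW1
        exact mul_le_mul_of_nonneg_left (sum_norm_sq_eA A j) (norm_nonneg _)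
    _ = D * A.card * (W1 D * W2 D) := by
        unfold W2
        have : ∑ j : ZMod D, ‖cf j‖ * (D * (A.card * (Nat.gcd j.val D : ℝ))) =
            (D * A.card) * ∑ j : ZMod D, ‖cf j‖ * (Nat.gcd j.val D : ℝ) := by
          rw [mul_sum]
          exact sum_congr rfl (fun j _ => by ring)
        rw [this]
        ring

/-- reflecting a sum over `1, .., D - 1` -/
lemma sum_reflect (h : ℕ → ℝ) (n : ℕ) (hh : ∀ k, k ≤ n → h (n - k) = h k) :
    ∑ k ∈ Ico 1 n, h k * (1 / ((n : ℝ) - k)) = ∑ k ∈ Ico 1 n, h k * (1 / (k : ℝ)) := by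
  refine sum_nbij' (fun k => n - k) (fun k => n - k) ?_ ?_ ?_ ?_ ?_
  · intro k hk; rw [mem_Ico] at *; omega
  · intro k hk; rw [mem_Ico] at *; omega
  · intro k hk; rw [mem_Ico] at *; omega
  · intro k hk; rw [mem_Ico] at *; omega
  · intro k hk
    rw [mem_Ico] at hk
    rw [hh k hk.2.le, Nat.cast_sub hk.2.le]

lemma weight_le (h : ℕ → ℝ) (h0 : ∀ k, 0 ≤ h k) (hh : ∀ k, k ≤ D → h (D - k) = h k) :
    ∑ j : ZMod D, ‖cf j‖ * h j.val ≤
      h 0 / (2 * D) + (1 / 2) * ∑ k ∈ Ico 1 D, h k * (1 / (k : ℝ)) := by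
  classical
  have hD := D_pos (D := D)
  have h1 : ∀ j : ZMod D, ‖cf j‖ * h j.val ≤ (fun k : ℕ => if k = 0 then h 0 / (2 * D) else
      (1 / 4) * (h k * (1 / (k : ℝ)) + h k * (1 / ((D : ℝ) - k)))) j.val := by
    intro j
    by_cases hj : j = 0
    · subst hj
      simp only [ZMod.val_zero, if_true]
      rw [cf_zero, norm_div, norm_neg, norm_one, norm_mul, Complex.norm_natCast]
      simp only [Complex.norm_ofNat]
      rw [div_mul_eq_mul_div, one_mul]
    · have hv : j.val ≠ 0 := fun h0 => hj ((ZMod.val_eq_zero j).1 h0)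
      simp only [hv, if_false]
      calc ‖cf j‖ * h j.val ≤ ((1 / 4) * (1 / (j.val : ℝ) + 1 / ((D : ℝ) - j.val))) * h j.val :=
            mul_le_mul_of_nonneg_right (norm_cf_le j hj) (h0 _)
        _ = _ := by ring
  refine (sum_le_sum (fun j _ => h1 j)).trans ?_
  rw [sum_zmod (fun k : ℕ => if k = 0 then h 0 / (2 * (D : ℝ)) else
      (1 / 4) * (h k * (1 / (k : ℝ)) + h k * (1 / ((D : ℝ) - k))))]
  have hDp : 0 < D := Nat.pos_of_ne_zero (NeZero.ne D)
  rw [range_eq_Ico, ← sum_Ioo_add_eq_sum_Ico hDp]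
  have h2 : ∑ k ∈ Ioo 0 D, (if k = 0 then h 0 / (2 * (D : ℝ)) else
      (1 / 4) * (h k * (1 / (k : ℝ)) + h k * (1 / ((D : ℝ) - k)))) =
      (1 / 4) * (∑ k ∈ Ico 1 D, h k * (1 / (k : ℝ)) +
        ∑ k ∈ Ico 1 D, h k * (1 / ((D : ℝ) - k))) := by
    rw [← sum_add_distrib, mul_sum]
    have : Ioo 0 D = Ico 1 D := by ext k; simp only [mem_Ioo, mem_Ico]; omega
    rw [this]
    refine sum_congr rfl (fun k hk => ?_)
    rw [mem_Ico] at hk
    rw [if_neg (by omega)]
  rw [h2, sum_reflect h D hh]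
  simp only [if_true]
  linarith

lemma harm_le (n : ℕ) (_hn : 1 ≤ n) :
    ∑ k ∈ Ico 1 n, (1 / (k : ℝ)) ≤ 1 + Real.log n := by
  have h1 : ∑ k ∈ Ico 1 n, (1 / (k : ℝ)) ≤ ∑ k ∈ Icc 1 n, (1 / (k : ℝ)) := by
    refine sum_le_sum_of_subset_of_nonneg ?_ (fun k _ _ => by positivity)
    intro k hk
    rw [mem_Ico] at hk
    rw [mem_Icc]
    omega
  have h2 := harmonic_le_one_add_log n
  rw [harmonic_eq_sum_Icc, Rat.cast_sum] at h2
  simp only [Rat.cast_inv, Rat.cast_natCast] at h2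
  refine h1.trans (le_trans (le_of_eq (sum_congr rfl (fun k _ => one_div _))) h2)

lemma gcd_sum_le (n : ℕ) (hn : 1 ≤ n) :
    ∑ k ∈ Ico 1 n, (Nat.gcd k n : ℝ) * (1 / (k : ℝ)) ≤
      (n.divisors.card : ℝ) * (1 + Real.log n) := by
  classical
  have hmaps : ∀ k ∈ Ico 1 n, Nat.gcd k n ∈ n.divisors := by
    intro k _
    rw [Nat.mem_divisors]
    exact ⟨Nat.gcd_dvd_right _ _, by omega⟩
  rw [← sum_fiberwise_of_maps_to hmaps]
  calc ∑ g ∈ n.divisors, ∑ k ∈ (Ico 1 n).filter (fun k => Nat.gcd k n = g),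
        (Nat.gcd k n : ℝ) * (1 / (k : ℝ))
      ≤ ∑ _g ∈ n.divisors, (1 + Real.log n) := by
        refine sum_le_sum (fun g hg => ?_)
        have hg0 : 0 < g := Nat.pos_of_mem_divisors hg
        have e1 : ∑ k ∈ (Ico 1 n).filter (fun k => Nat.gcd k n = g),
            (Nat.gcd k n : ℝ) * (1 / (k : ℝ)) =
            ∑ k ∈ (Ico 1 n).filter (fun k => Nat.gcd k n = g), (1 / ((k / g : ℕ) : ℝ)) := by
          refine sum_congr rfl (fun k hk => ?_)
          rw [mem_filter, mem_Ico] at hk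
          have hdvd : g ∣ k := hk.2 ▸ Nat.gcd_dvd_left k n
          obtain ⟨m, rfl⟩ := hdvd
          rw [hk.2, Nat.mul_div_cancel_left m hg0]
          have hm : (m : ℝ) ≠ 0 := by
            have : m ≠ 0 := by rintro rfl; omega
            exact_mod_cast this
          have hg' : (g : ℝ) ≠ 0 := by positivity
          push_cast
          field_simp
        rw [e1]
        have hinj : Set.InjOn (fun k => k / g)
            ((Ico 1 n).filter (fun k => Nat.gcd k n = g) : Set ℕ) := by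
          intro k hk l hl hkl
          have hk' := mem_coe.1 hk
          have hl' := mem_coe.1 hl
          rw [mem_filter] at hk' hl'
          have d1 : g ∣ k := hk'.2 ▸ Nat.gcd_dvd_left k n
          have d2 : g ∣ l := hl'.2 ▸ Nat.gcd_dvd_left l n
          have e : k / g = l / g := hkl
          rw [← Nat.div_mul_cancel d1, ← Nat.div_mul_cancel d2, e]
        rw [← sum_image (f := fun m : ℕ => (1 / (m : ℝ))) (g := fun k => k / g) hinj]
        refine le_trans (sum_le_sum_of_subset_of_nonneg (t := Ico 1 n) ?_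
          (fun k _ _ => by positivity)) (harm_le n hn)
        intro m hm
        rw [mem_image] at hm
        obtain ⟨k, hk, rfl⟩ := hm
        rw [mem_filter, mem_Ico] at hk
        have d1 : g ∣ k := hk.2 ▸ Nat.gcd_dvd_left k n
        rw [mem_Ico]
        refine ⟨Nat.div_pos (Nat.le_of_dvd (by omega) d1) hg0, ?_⟩
        exact lt_of_le_of_lt (Nat.div_le_self _ _) hk.1.2
    _ = (n.divisors.card : ℝ) * (1 + Real.log n) := by rw [sum_const, nsmul_eq_mul]

lemma log_nonneg' : 0 ≤ Real.log (D : ℝ) :=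
  Real.log_nonneg (by exact_mod_cast Nat.one_le_iff_ne_zero.2 (NeZero.ne D))

lemma W1_le : W1 D ≤ 1 + Real.log D := by
  have h := weight_le (D := D) (fun _ => 1) (fun _ => zero_le_one) (fun _ _ => rfl)
  have hD1 : 1 ≤ D := Nat.one_le_iff_ne_zero.2 (NeZero.ne D)
  have hD : (1 : ℝ) ≤ D := by exact_mod_cast hD1
  have h2 := harm_le D hD1
  have h3 := log_nonneg' (D := D)
  simp only [mul_one, one_mul] at h
  have h4 : 1 / (2 * (D : ℝ)) ≤ 1 / 2 := by
    apply one_div_le_one_div_of_le <;> linarith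
  unfold W1
  linarith

lemma W2_le : W2 D ≤ (D.divisors.card : ℝ) * (1 + Real.log D) := by
  have hD1 : 1 ≤ D := Nat.one_le_iff_ne_zero.2 (NeZero.ne D)
  have h := weight_le (D := D) (fun k => (Nat.gcd k D : ℝ)) (fun _ => Nat.cast_nonneg _) (by
    intro k hk
    congr 1
    exact Nat.gcd_self_sub_left hk)
  have hD : (1 : ℝ) ≤ D := by exact_mod_cast hD1
  have h2 := gcd_sum_le D hD1
  have h3 := log_nonneg' (D := D)
  have h5 : (1 : ℝ) ≤ D.divisors.card := by
    have : 0 < D.divisors.card := card_pos.2 ⟨D, Nat.mem_divisors_self D (NeZero.ne D)⟩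
    exact_mod_cast this
  simp only [Nat.gcd_zero_left] at h
  have h4 : (D : ℝ) / (2 * (D : ℝ)) = 1 / 2 := by
    field_simp
  rw [h4] at h
  unfold W2
  nlinarith

lemma W2_nonneg : 0 ≤ W2 D := sum_nonneg (fun j _ => mul_nonneg (norm_nonneg _) (Nat.cast_nonneg _))

lemma second_moment' (A : Finset (ZMod D)) :
    ∑ t : ZMod D, (∑ a ∈ A, saw (t * a)) ^ 2 ≤
      D * A.card * ((D.divisors.card : ℝ) * (1 + Real.log D) ^ 2) := by
  refine (second_moment A).trans ?_
  refine mul_le_mul_of_nonneg_left ?_ (mul_nonneg D_pos.le (Nat.cast_nonneg _))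
  have h3 := log_nonneg' (D := D)
  calc W1 D * W2 D ≤ (1 + Real.log D) * ((D.divisors.card : ℝ) * (1 + Real.log D)) :=
        mul_le_mul W1_le W2_le W2_nonneg (by linarith)
    _ = _ := by ring

end Pool.Agent.Helper29.Rohr
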